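import Pool.Agent.W366.SI.I1

set_option autoImplicit false
set_option linter.unusedSectionVars false

/-! # The dehomogenized form of the functional equation of an ideal -/

namespace Pool.Agent.H63.VK

open MvPolynomial Pool.Agent.W574.SM Pool.Agent.W574.HS Pool.Agent.W366.SI Pool.Agent.H628R4.TP

section

variable {σ ι : Type} [Fintype ι] [DecidableEq ι]

/-- operators with coefficients which are polynomials in `s` -/
def LiftS (E : ℕ → ((ι →₀ ℕ) → MvPolynomial σ ℂ) → (ι →₀ ℕ) → MvPolynomial σ ℂ) : Prop :=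
  ∃ D : ℕ →₀ weylS (ι ⊕ σ), ∀ (s : ℕ) (G : MvPolynomial (ι ⊕ σ) ℂ),
    hat (D.sum fun m Q => ((s : ℂ) ^ m) • (Q : Module.End ℂ (MvPolynomial (ι ⊕ σ) ℂ)) G) =
      E s (hat G)

variable {E E' : ℕ → ((ι →₀ ℕ) → MvPolynomial σ ℂ) → (ι →₀ ℕ) → MvPolynomial σ ℂ}

theorem liftS_const {T : ((ι →₀ ℕ) → MvPolynomial σ ℂ) → (ι →₀ ℕ) → MvPolynomial σ ℂ}
    (hT : Lift T) : LiftS fun _ => T := by
  obtain ⟨Q, m, h⟩ := hT
  refine ⟨Finsupp.single 0 ⟨Q, m⟩, fun s G => ?_⟩
  rw [Finsupp.sum_single_index (by simp), pow_zero, one_smul]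
  exact h G

theorem liftS_add (h : LiftS E) (h' : LiftS E') : LiftS fun s H α => E s H α + E' s H α := by
  obtain ⟨D, hD⟩ := h
  obtain ⟨D', hD'⟩ := h'
  refine ⟨D + D', fun s G => ?_⟩
  rw [Finsupp.sum_add_index' (by simp) (fun m Q R => by
    rw [Subalgebra.coe_add, LinearMap.add_apply, smul_add])]
  funext α
  rw [hat_add, hD, hD']

theorem liftS_zero : LiftS (σ := σ) (ι := ι) fun _ _ _ => 0 := liftS_const lift_zero

theorem liftS_sum {K : Type} (t : Finset K)
    (E : K → ℕ → ((ι →₀ ℕ) → MvPolynomial σ ℂ) → (ι →₀ ℕ) → MvPolynomial σ ℂ)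
    (h : ∀ k ∈ t, LiftS (E k)) : LiftS fun s H α => ∑ k ∈ t, E k s H α := by
  classical
  induction t using Finset.induction_on with
  | empty => simpa using liftS_zero
  | insert k t hk ih =>
    have := liftS_add (h k (Finset.mem_insert_self k t))
      (ih fun l hl => h l (Finset.mem_insert_of_mem hl))
    simpa [Finset.sum_insert hk] using this

theorem liftS_comp {T : ((ι →₀ ℕ) → MvPolynomial σ ℂ) → (ι →₀ ℕ) → MvPolynomial σ ℂ}
    (hT : Lift T) (h : LiftS E) : LiftS fun s H => T (E s H) := by
  obtain ⟨Q, m, hQ⟩ := hT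
  obtain ⟨D, hD⟩ := h
  refine ⟨D.mapRange (fun R => ⟨Q, m⟩ * R) (mul_zero _), fun s G => ?_⟩
  rw [Finsupp.sum_mapRange_index (by simp)]
  change _ = T (E s (hat G))
  rw [← hD, ← hQ]
  congr 1
  rw [Finsupp.sum, Finsupp.sum, map_sum]
  refine Finset.sum_congr rfl fun k _ => ?_
  rw [map_smul]
  rfl

theorem liftS_s (h : LiftS E) : LiftS fun s H α => (s : ℂ) • E s H α := by
  obtain ⟨D, hD⟩ := h
  refine ⟨D.mapDomain (· + 1), fun s G => ?_⟩
  rw [Finsupp.sum_mapDomain_index (by simp) (fun m Q R => by
    rw [Subalgebra.coe_add, LinearMap.add_apply, smul_add])]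
  funext α
  change _ = (s : ℂ) • E s (hat G) α
  rw [← hD, ← hat_smul]
  congr 1
  rw [Finsupp.sum, Finsupp.sum, Finset.smul_sum]
  refine Finset.sum_congr rfl fun k _ => ?_
  rw [smul_smul, pow_succ']

/-- the functions which can be coefficients -/
def Good (σ : Type) (q : ℕ → (ι →₀ ℕ) → ℂ) : Prop :=
  ∀ E : ℕ → ((ι →₀ ℕ) → MvPolynomial σ ℂ) → (ι →₀ ℕ) → MvPolynomial σ ℂ, LiftS E →
    LiftS fun s H α => q s α • E s H α

variable {q q' : ℕ → (ι →₀ ℕ) → ℂ}

theorem good_const (r : ℂ) : Good (ι := ι) σ fun _ _ => r :=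
  fun _ hE => liftS_comp (lift_smul lift_id r) hE

theorem good_s : Good (ι := ι) σ fun s _ => (s : ℂ) := fun _ hE => liftS_s hE

theorem good_var (j : ι) : Good (ι := ι) σ fun _ α => (α j : ℂ) :=
  fun _ hE => liftS_comp (lift_theta lift_id j) hE

theorem Good.add (h : Good σ q) (h' : Good σ q') : Good σ fun s α => q s α + q' s α := by
  intro E hE
  simp only [add_smul]
  exact liftS_add (h E hE) (h' E hE)

theorem Good.mul (h : Good σ q) (h' : Good σ q') : Good σ fun s α => q s α * q' s α := by
  intro E hE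
  simp only [mul_smul]
  exact h _ (h' E hE)

theorem Good.pow (h : Good σ q) (n : ℕ) : Good σ fun s α => q s α ^ n := by
  induction n with
  | zero => simp only [pow_zero]; exact good_const 1
  | succ n ih => simp only [pow_succ]; exact ih.mul h

theorem Good.prod {K : Type} (t : Finset K) (q : K → ℕ → (ι →₀ ℕ) → ℂ)
    (h : ∀ k ∈ t, Good σ (q k)) : Good σ fun s α => ∏ k ∈ t, q k s α := by
  classical
  induction t using Finset.induction_on with
  | empty => simp only [Finset.prod_empty]; exact good_const 1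
  | insert k t hk ih =>
    simp only [Finset.prod_insert hk]
    exact (h k (Finset.mem_insert_self k t)).mul
      (ih fun l hl => h l (Finset.mem_insert_of_mem hl))

theorem Good.sum {K : Type} (t : Finset K) (q : K → ℕ → (ι →₀ ℕ) → ℂ)
    (h : ∀ k ∈ t, Good σ (q k)) : Good σ fun s α => ∑ k ∈ t, q k s α := by
  classical
  induction t using Finset.induction_on with
  | empty => simp only [Finset.sum_empty]; exact good_const 0
  | insert k t hk ih =>
    simp only [Finset.sum_insert hk]
    exact (h k (Finset.mem_insert_self k t)).add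
      (ih fun l hl => h l (Finset.mem_insert_of_mem hl))

theorem good_s0 : Good (ι := ι) σ fun s α => (s : ℂ) - ∑ j, (α j : ℂ) := by
  have h := good_s.add ((good_const (-1)).mul (Good.sum Finset.univ _ fun j _ =>
    good_var (σ := σ) (ι := ι) j))
  convert h using 3
  ring

/-- the coefficients of the powers of the dehomogenized form -/
theorem hat_deh_pow (A : MvPolynomial σ ℂ) (f : ι → MvPolynomial σ ℂ) (s : ℕ) (α : ι →₀ ℕ) :
    hat ((rename Sum.inr A + univ f) ^ s) α =
      (s.descFactorial (∑ j, α j) : ℂ) • (A ^ (s - ∑ j, α j) * ∏ j, f j ^ α j) := by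
  rw [add_comm, add_pow, hat_sum]
  have h1 : ∀ k ∈ Finset.range (s + 1), hat (univ f ^ k * rename Sum.inr A ^ (s - k) *
      ((s.choose k : ℕ) : MvPolynomial (ι ⊕ σ) ℂ)) α =
      if ∑ j, α j = k then (s.descFactorial (∑ j, α j) : ℂ) •
        (A ^ (s - ∑ j, α j) * ∏ j, f j ^ α j) else 0 := by
    intro k _
    have h2 : univ f ^ k * rename Sum.inr A ^ (s - k) *
        ((s.choose k : ℕ) : MvPolynomial (ι ⊕ σ) ℂ) =
        C ((s.choose k : ℕ) : ℂ) * (rename Sum.inr (A ^ (s - k)) * univ f ^ k) := by
      rw [map_natCast, map_pow]; ring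
    rw [h2, hat_C_mul, hat_r, hat_univ_pow]
    split_ifs with h
    · rw [h, Nat.descFactorial_eq_factorial_mul_choose, mul_smul_comm, smul_smul]
      push_cast
      rw [mul_comm]
    · simp
  rw [Finset.sum_congr rfl h1]
  rcases Nat.lt_or_ge s (∑ j, α j) with h | h
  · rw [Nat.descFactorial_eq_zero_iff_lt.2 h, Nat.cast_zero, zero_smul]
    exact Finset.sum_eq_zero fun k _ => by split_ifs <;> rfl
  · rw [Finset.sum_ite_eq, if_pos (Finset.mem_range.2 (by omega))]

/-- the combinatorial factor of the index which is not a variable -/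
noncomputable def rc (c : ℤ) (s0 : ℂ) : ℂ :=
  if c < 0 then (((-c).toNat.factorial : ℕ) : ℂ)⁻¹ else ∏ i ∈ Finset.range c.toNat, (s0 + (i + 1))

theorem good_rc (c : ℤ) : Good (ι := ι) σ fun s α => rc c ((s : ℂ) - ∑ j, (α j : ℂ)) := by
  unfold rc
  split_ifs
  · exact good_const _
  · exact Good.prod _ _ fun i _ => good_s0.add (good_const _)

/-- the numerical identity -/
theorem rc_key (s a n : ℕ) (c : ℤ) (hn : (n : ℤ) = a + 1 - c) (A : MvPolynomial σ ℂ) :
    (rc c ((s : ℂ) - a) * ((s + 1).descFactorial n : ℂ)) • A ^ (s + 1 - n) =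
      if a ≤ s then (((s : ℂ) + 1) * (s.descFactorial a : ℂ)) •
        (C ((if c < 0 then (s - a).choose (-c).toNat else 1 : ℕ) : ℂ) *
          A ^ (((s - a : ℕ) : ℤ) + c).toNat) else 0 := by
  have hK : (s + 1).descFactorial (a + 1) = (s + 1) * s.descFactorial a :=
    Nat.succ_descFactorial_succ s a
  by_cases has : a ≤ s
  · rw [if_pos has]
    obtain ⟨s0, rfl⟩ := Nat.exists_eq_add_of_le has
    have hs0 : a + s0 - a = s0 := by omega
    rw [hs0]
    have hs0' : (((a + s0 : ℕ) : ℂ) - a) = s0 := by push_cast; ring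
    rw [hs0']
    by_cases hc : c < 0
    · obtain ⟨k, hk⟩ : ∃ k : ℕ, c = -(k : ℤ) := ⟨(-c).toNat, by omega⟩
      subst hk
      have hn' : n = a + 1 + k := by omega
      subst hn'
      have hkk : (-(-(k : ℤ))).toNat = k := by omega
      rw [rc, if_pos hc, if_pos hc, hkk, C_mul', smul_smul]
      have h1 : (a + s0 + 1).descFactorial (a + 1 + k) =
          (a + s0 + 1).descFactorial (a + 1) * s0.descFactorial k := by
        rw [desc_add]
        congr 2
        omega
      rw [h1, hK, Nat.descFactorial_eq_factorial_mul_choose s0 k]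
      have h2 : ((k.factorial : ℕ) : ℂ) ≠ 0 := Nat.cast_ne_zero.2 (Nat.factorial_ne_zero k)
      by_cases hks : k ≤ s0
      · have h3 : a + s0 + 1 - (a + 1 + k) = ((s0 : ℤ) + -(k : ℤ)).toNat := by omega
        rw [h3]
        congr 1
        push_cast
        field_simp
      · have h3 : s0.choose k = 0 := Nat.choose_eq_zero_of_lt (by omega)
        rw [h3]
        simp
    · obtain ⟨k, hk⟩ : ∃ k : ℕ, c = (k : ℤ) := ⟨c.toNat, by omega⟩
      subst hk
      have hkk : ((k : ℤ)).toNat = k := by omega
      rw [rc, if_neg hc, if_neg hc, hkk, Nat.cast_one, map_one, one_mul]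
      have h1 : (a + s0 + 1).descFactorial (n + k) =
          (a + s0 + 1).descFactorial n * (s0 + k).descFactorial k := by
        rw [desc_add]
        congr 2
        omega
      have h2 : n + k = a + 1 := by omega
      rw [h2, hK, Nat.add_descFactorial_eq_ascFactorial, Nat.ascFactorial_eq_prod_range] at h1
      have h3 : a + s0 + 1 - n = ((s0 : ℤ) + (k : ℤ)).toNat := by omega
      rw [h3]
      congr 1
      have h4 := congrArg (fun n : ℕ => (n : ℂ)) h1
      push_cast at h4 ⊢
      rw [h4, mul_comm]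
      congr 1
      refine Finset.prod_congr rfl fun i _ => ?_
      ring
  · rw [if_neg has]
    by_cases hns : s + 1 < n
    · rw [Nat.descFactorial_eq_zero_iff_lt.2 hns, Nat.cast_zero, mul_zero, zero_smul]
    · have hc : ¬ c < 0 := by omega
      rw [rc, if_neg hc, Finset.prod_eq_zero (i := a - s - 1), zero_mul, zero_smul]
      · rw [Finset.mem_range]; omega
      · have h1 : ((a - s - 1 : ℕ) : ℂ) = (a : ℂ) - s - 1 := by
          have h2 : a - s - 1 + (s + 1) = a := by omega
          have h3 := congrArg (fun n : ℕ => (n : ℂ)) h2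
          push_cast at h3
          linear_combination h3
        rw [h1]; ring

/-- **The dehomogenized form of the functional equation of an ideal.** -/
theorem deh [DecidableEq σ] (f : Option ι → MvPolynomial σ ℂ) (b : Polynomial ℂ)
    (hb : IsFunctionalEq f b) :
    IsBFunction (rename Sum.inr (f none) + univ fun j => f (some j))
      ((Polynomial.X + 1) * b) := by
  classical
  obtain ⟨S, P, hS, hP⟩ := hb
  set cf : (ι → ℤ) → ℂ := fun c => ∏ j, (((-c j).toNat.factorial : ℕ) : ℂ) with hcf
  have hcf0 : ∀ c, cf c ≠ 0 := by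
    intro c
    rw [hcf]
    refine Finset.prod_ne_zero_iff.2 fun j _ => ?_
    exact_mod_cast Nat.factorial_ne_zero _
  have hfall : ∀ (c : ι → ℤ) (α : ι →₀ ℕ), (fall c α : ℂ) = cf c *
      ((∏ j, (if c j < 0 then (α j).choose (-c j).toNat else 1) : ℕ) : ℂ) := by
    intro c α
    have : fall c α = (∏ j, (-c j).toNat.factorial) *
        ∏ j, (if c j < 0 then (α j).choose (-c j).toNat else 1) := by
      rw [fall, ← Finset.prod_mul_distrib]
      refine Finset.prod_congr rfl fun j _ => ?_
      split_ifs with h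
      · rw [Nat.descFactorial_eq_factorial_mul_choose]
      · have h0 : (-c j).toNat = 0 := by omega
        rw [h0]; simp
    rw [this, hcf]
    push_cast
    rfl
  have hlift : LiftS (fun (s : ℕ) (H : (ι →₀ ℕ) → MvPolynomial σ ℂ) α => ∑ c ∈ S,
      ∑ β ∈ (P c).support,
      (((s : ℂ) - ∑ j, (α j : ℂ)) ^ β none * ∏ j, (α j : ℂ) ^ β (some j)) •
        (rc (c none) ((s : ℂ) - ∑ j, (α j : ℂ)) • (P c β : Module.End ℂ (MvPolynomial σ ℂ))
        ((cf fun j => c (some j))⁻¹ • (fall (fun j => c (some j)) α : ℂ) •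
          H (sh α fun j => c (some j))))) :=
    liftS_sum S _ fun c _ => liftS_sum _ _ fun β _ =>
      ((good_s0.pow _).mul (Good.prod _ _ fun j _ => (good_var j).pow _)) _
        (good_rc (c none) _ (liftS_const
          (lift_weyl _ (P c β).2 _ (lift_smul (lift_sh _ lift_id) _))))
  obtain ⟨Q, hQ⟩ := hlift
  refine ⟨Q, fun s => ?_⟩
  apply hat_inj
  rw [hQ]
  funext α
  rw [hat_C_mul, hat_deh_pow]
  obtain ⟨a, ha⟩ : ∃ a, a = ∑ j, α j := ⟨_, rfl⟩
  have hac : ∑ j, (α j : ℂ) = (a : ℂ) := by rw [ha]; push_cast; rfl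
  rw [← ha]
  simp only [hac]
  obtain ⟨sv, hsv⟩ : ∃ sv : Option ι → ℕ, sv = fun j => match j with
    | none => s - a
    | some j => α j := ⟨_, rfl⟩
  -- the value of one term
  have hin : ∀ c ∈ S, rc (c none) ((s : ℂ) - a) • (cf fun j => c (some j))⁻¹ •
      (fall (fun j => c (some j)) α : ℂ) •
        hat ((rename Sum.inr (f none) + univ fun j => f (some j)) ^ (s + 1))
          (sh α fun j => c (some j)) =
      if a ≤ s then (((s : ℂ) + 1) * (s.descFactorial a : ℂ)) •
        (C ((∏ j, (if c j < 0 then (sv j).choose (-c j).toNat else 1) : ℕ) : ℂ) *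
          ∏ j, f j ^ ((sv j : ℤ) + c j).toNat) else 0 := by
    intro c hc
    have hprod : ((∏ j, (if c j < 0 then (sv j).choose (-c j).toNat else 1) : ℕ) : ℂ) =
        ((if c none < 0 then (s - a).choose (-c none).toNat else 1 : ℕ) : ℂ) *
        ((∏ j, (if c (some j) < 0 then (α j).choose (-c (some j)).toNat else 1) : ℕ) : ℂ) := by
      rw [Fintype.prod_option, hsv]
      push_cast
      rfl
    by_cases h0 : fall (fun j => c (some j)) α = 0
    · have h2 := hfall (fun j => c (some j)) α
      rw [h0, Nat.cast_zero] at h2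
      have h3 := (mul_eq_zero.1 h2.symm).resolve_left (hcf0 _)
      rw [hprod, h3, h0]
      simp
    · have hpos : ∀ j, 0 ≤ (α j : ℤ) + c (some j) := by
        intro j
        by_contra hj
        refine h0 (Finset.prod_eq_zero (Finset.mem_univ j) ?_)
        rw [Nat.descFactorial_eq_zero_iff_lt]
        change α j < (-c (some j)).toNat
        omega
      obtain ⟨n, hn⟩ : ∃ n, n = ∑ j, sh α (fun j => c (some j)) j := ⟨_, rfl⟩
      have hn' : (n : ℤ) = a + 1 - c none := by
        have h1 := hS c hc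
        rw [Fintype.sum_option] at h1
        have h2 : (n : ℤ) = ∑ j, ((α j : ℤ) + c (some j)) := by
          rw [hn]
          push_cast
          refine Finset.sum_congr rfl fun j _ => ?_
          rw [sh_apply, Int.toNat_of_nonneg (hpos j)]
        rw [h2, Finset.sum_add_distrib, ha]
        push_cast
        linarith
      rw [hat_deh_pow, ← hn, hfall]
      have h5 := rc_key s a n (c none) hn' (f none)
      have h6 : ∏ j, f (some j) ^ (sh α fun j => c (some j)) j =
        ∏ j, f (some j) ^ ((α j : ℤ) + c (some j)).toNat := rfl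
      have h7 : (rc (c none) ((s : ℂ) - a) • (cf fun j => c (some j))⁻¹ •
          (cf (fun j => c (some j)) * ((∏ j, (if c (some j) < 0 then
            (α j).choose (-c (some j)).toNat else 1) : ℕ) : ℂ)) •
          ((s + 1).descFactorial n : ℂ) • (f none ^ (s + 1 - n) *
            ∏ j, f (some j) ^ (sh α fun j => c (some j)) j)) =
          ((rc (c none) ((s : ℂ) - a) * ((s + 1).descFactorial n : ℂ)) • f none ^ (s + 1 - n)) *
            (C ((∏ j, (if c (some j) < 0 then
            (α j).choose (-c (some j)).toNat else 1) : ℕ) : ℂ) *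
              ∏ j, f (some j) ^ ((α j : ℤ) + c (some j)).toNat) := by
        rw [h6, smul_smul, smul_smul, smul_smul, smul_mul_assoc, C_mul', mul_smul_comm, smul_smul]
        congr 1
        have := hcf0 fun j => c (some j)
        field_simp
      rw [h7, h5]
      by_cases has : a ≤ s
      · rw [if_pos has, if_pos has, hprod, Fintype.prod_option, smul_mul_assoc]
        congr 1
        rw [hsv, map_mul]
        simp only
        ring
      · rw [if_neg has, if_neg has, zero_mul]
  have hterm : ∀ c ∈ S, (∑ β ∈ (P c).support,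
      (((s : ℂ) - a) ^ β none * ∏ j, (α j : ℂ) ^ β (some j)) •
        (rc (c none) ((s : ℂ) - a) • (P c β : Module.End ℂ (MvPolynomial σ ℂ))
        ((cf fun j => c (some j))⁻¹ • (fall (fun j => c (some j)) α : ℂ) •
          hat ((rename Sum.inr (f none) + univ fun j => f (some j)) ^ (s + 1))
          (sh α fun j => c (some j))))) =
      if a ≤ s then (((s : ℂ) + 1) * (s.descFactorial a : ℂ)) • applyAt (P c) sv
        (C ((∏ j, (if c j < 0 then (sv j).choose (-c j).toNat else 1) : ℕ) : ℂ) *
          ∏ j, f j ^ ((sv j : ℤ) + c j).toNat) else 0 := by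
    intro c hc
    by_cases has : a ≤ s
    · rw [if_pos has, applyAt, Finsupp.sum, Finset.smul_sum]
      refine Finset.sum_congr rfl fun β _ => ?_
      have h1 : (((s : ℂ) - a) ^ β none * ∏ j, (α j : ℂ) ^ β (some j)) =
          ∏ j, (sv j : ℂ) ^ β j := by
        rw [Fintype.prod_option, hsv]
        simp only
        rw [Nat.cast_sub has]
      rw [← map_smul, hin c hc, if_pos has, map_smul, h1, smul_comm]
    · rw [if_neg has]
      refine Finset.sum_eq_zero fun β _ => ?_
      rw [← map_smul, hin c hc, if_neg has, map_zero, smul_zero]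
  rw [Finset.sum_congr rfl hterm]
  by_cases has : a ≤ s
  · simp only [if_pos has]
    rw [← Finset.smul_sum]
    have hk := hP sv
    have hsum : ∑ j, sv j = s := by
      rw [Fintype.sum_option, hsv]
      simp only
      omega
    rw [hsum] at hk
    rw [← hk, Fintype.prod_option, C_mul', hsv, smul_smul, smul_smul]
    congr 1
    rw [Polynomial.eval_mul, Polynomial.eval_add, Polynomial.eval_X, Polynomial.eval_one]
    ring
  · simp only [if_neg has]
    rw [Finset.sum_const_zero, Nat.descFactorial_eq_zero_iff_lt.2 (by omega), Nat.cast_zero,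
      zero_smul, smul_zero]

end

end Pool.Agent.H63.VK
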