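import Pool.Agent.H63.VK.ISys

set_option autoImplicit false
set_option linter.unusedSectionVars false

/-! # The roots of the Bernstein-Sato polynomials of the ideals -/

namespace Pool.Agent.H63.VK

open MvPolynomial Pool.Agent.H63.VG Pool.Agent.H63.VI Pool.Agent.H628R4.TP
open Pool.Agent.W574.SM Pool.Agent.W574.HS

/-- division by `X + 1` -/
theorem dvd_strip (α : ℚ) (M : ℕ) (b : Polynomial ℂ)
    (h : (Polynomial.X - Polynomial.C (-(α : ℂ))) ^ (if α = 1 then M + 1 else M) ∣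
      (Polynomial.X + 1) * b) : (Polynomial.X - Polynomial.C (-(α : ℂ))) ^ M ∣ b := by
  by_cases h1 : α = 1
  · rw [if_pos h1] at h
    have h2 : (Polynomial.X - Polynomial.C (-(α : ℂ))) = Polynomial.X + 1 := by
      rw [h1]; simp
    rw [h2] at h ⊢
    rw [pow_succ', mul_comm (Polynomial.X + 1 : Polynomial ℂ) b] at h
    have h3 : (Polynomial.X + 1 : Polynomial ℂ) ≠ 0 := by
      rw [← Polynomial.C_1]; exact Polynomial.X_add_C_ne_zero 1
    rw [mul_comm b] at h
    exact (mul_dvd_mul_iff_left h3).1 h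
  · rw [if_neg h1] at h
    refine IsCoprime.dvd_of_dvd_mul_left ?_ h
    refine IsCoprime.pow_left ?_
    have h2 : (Polynomial.X + 1 : Polynomial ℂ) = Polynomial.X - Polynomial.C (-1 : ℂ) := by simp
    rw [h2]
    refine Polynomial.isCoprime_X_sub_C_of_isUnit_sub ?_
    refine isUnit_iff_ne_zero.2 fun h3 => h1 ?_
    have h4 : (α : ℂ) = 1 := by linear_combination -h3
    exact_mod_cast h4

/-- the choice of the exponents -/
theorem exists_delta' {σ : Type} [Fintype σ] [DecidableEq σ] (T : Finset σ) (t0 : σ)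
    (ht0 : t0 ∉ T) (α : ℚ) :
    ∃ δ : σ → ℕ, (∀ t, δ t = 2 ∨ δ t = 3) ∧ (∀ t, t ≠ t0 → δ t = 2) ∧
      ∀ n : ℕ, 1 ≤ n → α - ∑ t ∈ Finset.univ \ T, (1 : ℚ) / δ t ≠ n := by
  by_cases h1 : ∀ n : ℕ, 1 ≤ n → α - ∑ t ∈ Finset.univ \ T, (1 : ℚ) / ((2 : ℕ) : ℚ) ≠ n
  · exact ⟨fun _ => 2, fun _ => Or.inl rfl, fun _ _ => rfl, h1⟩
  · push Not at h1
    obtain ⟨n, -, hn⟩ := h1
    refine ⟨Function.update (fun _ => 2) t0 3, fun t => ?_, fun t ht => Function.update_of_ne ht _ _,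
      fun n' _ hn' => ?_⟩
    · by_cases h : t = t0
      · right; rw [h, Function.update_self]
      · left; rw [Function.update_of_ne h]
    · have hm : t0 ∈ Finset.univ \ T := by simp [ht0]
      rw [← Finset.sum_erase_add _ _ hm] at hn hn'
      rw [Function.update_self] at hn'
      rw [Finset.sum_congr rfl (g := fun _ => (1 : ℚ) / ((2 : ℕ) : ℚ)) (fun t ht => by
        rw [Function.update_of_ne (Finset.ne_of_mem_erase ht)])] at hn'
      have h2 : (6 : ℚ) * (n' : ℚ) = 6 * n + 1 := by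
        push_cast at hn hn'
        linarith
      have h3 : 6 * n' = 6 * n + 1 := by exact_mod_cast h2
      omega

section

variable {ρ ι σ : Type} [Fintype ρ] [DecidableEq ρ] [Fintype ι] [DecidableEq ι] [Fintype σ]
  [DecidableEq σ]
variable {P : MvPolynomial σ ℂ} {g : ρ → MvPolynomial σ ℂ} {κ a' a : σ → ℕ}
  (Λ : Loc P g κ a' a) (m : ℕ) (hm : 3 ≤ m)

theorem rat_new (p : ι → σ) {T : Finset σ} {α : ℚ}
    (hT : VI.Rat κ (fun t => a' t + m * a t) T α) :
    VI.Rat (Sum.elim (fun _ => 0) κ : ι ⊕ σ → ℕ)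
      (Sum.elim (fun _ => 0) fun t => a' t + m * a t) (T.map Function.Embedding.inr) α where
  pos := hT.pos
  mem q hq := by
    obtain ⟨t, ht, rfl⟩ := Finset.mem_map.1 hq
    exact hT.mem t ht
  notMem q hq := by
    rcases q with i | t
    · exact ⟨rfl, rfl⟩
    · exact hT.notMem t fun h => hq (Finset.mem_map.2 ⟨t, h, rfl⟩)

theorem sum_new (δ : σ → ℕ) (T : Finset σ) :
    ∑ q ∈ Finset.univ \ (T.map Function.Embedding.inr : Finset (ι ⊕ σ)),
      (1 : ℚ) / (Sum.elim (fun _ => 2) δ q : ℕ) =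
      (Fintype.card ι : ℚ) / 2 + ∑ t ∈ Finset.univ \ T, (1 : ℚ) / δ t := by
  have h1 : (Finset.univ \ (T.map Function.Embedding.inr : Finset (ι ⊕ σ))) =
      (Finset.univ : Finset ι).disjSum (Finset.univ \ T) := by
    ext q
    rcases q with i | t
    · simp
    · simp
  rw [h1, Finset.sum_disjSum]
  simp only [Sum.elim_inl, Sum.elim_inr, Finset.sum_const, Finset.card_univ, nsmul_eq_mul]
  congr 1
  push_cast
  ring

include hm in
/-- **Immersions.** -/
theorem ideal_strong (L : Option σ → ρ → ℂ)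
    (hL0 : ∀ t, ∑ j, L t j * MvPowerSeries.constantCoeff (Λ.w j) = if t = none then 1 else 0)
    (hL1 : ∀ t s, ∑ j, L (some t) j * MvPowerSeries.coeff (Finsupp.single s 1) (Λ.w j) =
      if s = t then 1 else 0) (T : Finset σ) (α : ℚ)
    (hT : VI.Rat κ (fun t => a' t + m * a t) T α) (p : ι → σ) (hp : Function.Injective p)
    (hpT : ∀ i, p i ∉ T) (δ : σ → ℕ) (hδ : ∀ t, δ t = 2 ∨ δ t = 3) (hδp : ∀ i, δ (p i) = 2)
    (hδn : ∀ n : ℕ, 1 ≤ n →
      α - ((Fintype.card ι : ℚ) / 2 + ∑ t ∈ Finset.univ \ T, (1 : ℚ) / δ t) ≠ n) :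
    ∃ Γ : MvPolynomial (Option ι × Ex ρ m) ℂ, Γ ≠ 0 ∧ ∀ G : Option ι → MvPolynomial ρ ℂ,
      (∀ o, (G o).IsHomogeneous m) → eval (fun q => (G q.1).coeff q.2.1) Γ ≠ 0 →
      ∀ b : Polynomial ℂ, IsFunctionalEq (fun o => P * aeval g (G o)) b →
          (Polynomial.X - Polynomial.C (-(α : ℂ))) ^ T.card ∣ b := by
  have hκ : ∀ i, κ (p i) = 0 := fun i => (hT.notMem _ (hpT i)).1
  have hA : ∀ i, a' (p i) + m * a (p i) = 0 := fun i => (hT.notMem _ (hpT i)).2
  have hv := ils_hv p Λ m hp hκ hA (Λ.v_ne m (L none) (by rw [hL0, if_pos rfl]))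
  have hδ' : ∀ q : ι ⊕ σ, (Sum.elim (fun _ => 2) δ q : ℕ) = 2 ∨
      (Sum.elim (fun _ => 2) δ q : ℕ) = 3 := by
    intro q
    rcases q with i | t
    · exact Or.inl rfl
    · exact hδ t
  have htan := tmem_tan p Λ m hm hp hκ hA (e := fun t => 6 / δ t)
    (fun t => by rcases hδ t with h | h <;> rw [h] <;> norm_num) Finset.univ
    (fun t ht => absurd (Finset.mem_univ t) ht) (fun i => Finset.mem_univ _) δ hδ
    (fun t _ => δ6' δ hδ t) hδp L (fun t _ => by rw [hL0, if_neg (Option.some_ne_none t)])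
    (by rw [hL0, if_pos rfl]) (fun t _ s _ => hL1 t s)
  have he : (Sum.elim (fun i => 6 / δ (p i)) fun t => 6 / δ t : ι ⊕ σ → ℕ) =
      fun q => 6 / (Sum.elim (fun _ => 2) δ q : ℕ) := by
    funext q
    rcases q with i | t
    · simp only [Sum.elim_inl, hδp]
    · rfl
  have hR : (Finset.univ : Finset ι).disjSum (Finset.univ : Finset σ) = Finset.univ := by
    ext q
    rcases q with i | t <;> simp
  rw [he, hR] at htan
  obtain ⟨Γ, hΓ, hΓ'⟩ := gen_A (ils p Λ m hp hκ hA) hv _ _ hδ' _ (rat_new m p hT)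
    (fun q => by
      rcases q with i | t
      · exact neg_ne_zero.2 Λ.hV
      · exact Λ.hV) htan (fun n hn => by
      rw [sum_new]
      exact hδn n hn)
  refine ⟨Γ, hΓ, fun G hG hne b hb => ?_⟩
  have h1 := deh _ b hb
  rw [← isys_member P g m G hG] at h1
  have h2 := hΓ' _ hne _ h1
  rw [Finset.card_map] at h2
  exact dvd_strip α _ b h2

include hm in
/-- **Immersions along the divisor.** -/
theorem ideal_weak (L : Option σ → ρ → ℂ) (o : σ)
    (hL0 : ∀ t, t ≠ some o →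
      ∑ j, L t j * MvPowerSeries.constantCoeff (Λ.w j) = if t = none then 1 else 0)
    (hL1 : ∀ t s, t ≠ o → s ≠ o → ∑ j, L (some t) j *
      MvPowerSeries.coeff (Finsupp.single s 1) (Λ.w j) = if s = t then 1 else 0) (α : ℚ)
    (hα : α ≠ 1)
    (hT : VI.Rat κ (fun t => a' t + m * a t) {o} α) (p : ι → σ) (hp : Function.Injective p)
    (hpT : ∀ i, p i ≠ o) (δ : σ → ℕ) (hδ : ∀ t, δ t = 2 ∨ δ t = 3) (hδp : ∀ i, δ (p i) = 2)
    (hδn : ∀ n : ℕ, 1 ≤ n →
      α - ((Fintype.card ι : ℚ) / 2 + ∑ t ∈ Finset.univ \ {o}, (1 : ℚ) / δ t) ≠ n) :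
    ∃ Γ : MvPolynomial (Option ι × Ex ρ m) ℂ, Γ ≠ 0 ∧ ∀ G : Option ι → MvPolynomial ρ ℂ,
      (∀ o, (G o).IsHomogeneous m) → eval (fun q => (G q.1).coeff q.2.1) Γ ≠ 0 →
      ∀ b : Polynomial ℂ, IsFunctionalEq (fun o => P * aeval g (G o)) b →
          (Polynomial.X - Polynomial.C (-(α : ℂ))) ^ 1 ∣ b := by
  have hpT' : ∀ i, p i ∉ ({o} : Finset σ) := fun i h => hpT i (Finset.mem_singleton.1 h)
  have hκ : ∀ i, κ (p i) = 0 := fun i => (hT.notMem _ (hpT' i)).1
  have hA : ∀ i, a' (p i) + m * a (p i) = 0 := fun i => (hT.notMem _ (hpT' i)).2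
  have hv := ils_hv p Λ m hp hκ hA (Λ.v_ne m (L none)
    (by rw [hL0 _ (Option.some_ne_none o).symm, if_pos rfl]))
  have hδ' : ∀ q : ι ⊕ σ, (Sum.elim (fun _ => 2) δ q : ℕ) = 2 ∨
      (Sum.elim (fun _ => 2) δ q : ℕ) = 3 := by
    intro q
    rcases q with i | t
    · exact Or.inl rfl
    · exact hδ t
  have htan := tmem_tan p Λ m hm hp hκ hA (e := fun t => if t = o then 7 else 6 / δ t)
    (fun t => by
      by_cases h : t = o
      · rw [if_pos h]; norm_num
      · rw [if_neg h]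
        rcases hδ t with h | h <;> rw [h]; norm_num) (Finset.univ.erase o)
    (fun t ht => by
      have : t = o := by
        by_contra h
        exact ht (Finset.mem_erase.2 ⟨h, Finset.mem_univ _⟩)
      rw [if_pos this]; norm_num)
    (fun i => Finset.mem_erase.2 ⟨hpT i, Finset.mem_univ _⟩) δ hδ
    (fun t ht => by rw [if_neg (Finset.ne_of_mem_erase ht)]; exact δ6' δ hδ t) hδp L
    (fun t ht => by
      rw [hL0 _ (fun h => Finset.ne_of_mem_erase ht (Option.some_injective _ h)),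
        if_neg (Option.some_ne_none t)])
    (by rw [hL0 _ (Option.some_ne_none o).symm, if_pos rfl])
    (fun t ht s hs => hL1 t s (Finset.ne_of_mem_erase ht) (Finset.ne_of_mem_erase hs))
  have he : (Sum.elim (fun i => if p i = o then 7 else 6 / δ (p i))
      fun t => if t = o then 7 else 6 / δ t : ι ⊕ σ → ℕ) =
      fun q => if q = Sum.inr o then 7 else 6 / (Sum.elim (fun _ => 2) δ q : ℕ) := by
    funext q
    rcases q with i | t
    · simp only [Sum.elim_inl, hδp, if_neg (hpT i)]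
      rw [if_neg (by simp)]
    · simp only [Sum.elim_inr, Sum.inr.injEq]
  have hR : (Finset.univ : Finset ι).disjSum (Finset.univ.erase o : Finset σ) =
      Finset.univ.erase (Sum.inr o) := by
    ext q
    rcases q with i | t <;> simp
  rw [he, hR] at htan
  have hT' := rat_new (ι := ι) m p hT
  have hmap : (({o} : Finset σ).map Function.Embedding.inr : Finset (ι ⊕ σ)) = {Sum.inr o} := by
    rw [Finset.map_singleton]; rfl
  rw [hmap] at hT'
  obtain ⟨Γ, hΓ, hΓ'⟩ := gen_W (ils p Λ m hp hκ hA) hv _ _ hδ' _ (Sum.inr o) hT'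
    (fun q _ => by
      rcases q with i | t
      · exact neg_ne_zero.2 Λ.hV
      · exact Λ.hV) htan (fun n hn => by
      rw [← hmap, sum_new]
      exact hδn n hn)
  refine ⟨Γ, hΓ, fun G hG hne b hb => ?_⟩
  have h1 := deh _ b hb
  rw [← isys_member P g m G hG] at h1
  have h2 := hΓ' _ hne _ h1
  refine dvd_strip α _ b ?_
  rw [if_neg hα]
  exact h2

end

end Pool.Agent.H63.VK
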