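import Pool.Agent.H63.VK.Tang
import Pool.Agent.H63.VK.Deh
import Pool.Agent.H63.VI.Chart

set_option autoImplicit false
set_option linter.unusedSectionVars false

/-! # The linear systems which belong to the ideals -/

namespace Pool.Agent.H63.VK

open MvPolynomial Pool.Agent.H63.VG Pool.Agent.H63.VI Pool.Agent.H628R4.TP
open Pool.Agent.W574.SM Pool.Agent.W574.HS

variable {ρ ι σ : Type} [Fintype ρ] [DecidableEq ρ] [Fintype ι] [DecidableEq ι] [Fintype σ]
  [DecidableEq σ]

/-- the new variables, and `1` -/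
noncomputable def yv : Option ι → MvPolynomial (ι ⊕ σ) ℂ
  | none => 1
  | some i => X (Sum.inl i)

/-- the linear system of the polynomials `P (G_0(g) + ∑ y_i G_i(g))` -/
noncomputable def isys (ι : Type) (P : MvPolynomial σ ℂ) (g : ρ → MvPolynomial σ ℂ) (m : ℕ)
    (q : Option ι × Ex ρ m) : MvPolynomial (ι ⊕ σ) ℂ :=
  yv q.1 * rename Sum.inr (P * ∏ j, g j ^ q.2.1 j)

theorem sys_sum (P : MvPolynomial σ ℂ) (g : ρ → MvPolynomial σ ℂ) (m : ℕ) (H : MvPolynomial ρ ℂ)
    (hH : H.IsHomogeneous m) :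
    ∑ ν : Ex ρ m, C (H.coeff ν.1) * (P * ∏ j, g j ^ ν.1 j) = P * aeval g H := by
  rw [form_expand m H hH, Finset.mul_sum]
  refine Finset.sum_congr rfl fun ν _ => ?_
  rw [algebraMap_eq]
  ring

theorem isys_member (P : MvPolynomial σ ℂ) (g : ρ → MvPolynomial σ ℂ) (m : ℕ)
    (G : Option ι → MvPolynomial ρ ℂ) (hG : ∀ o, (G o).IsHomogeneous m) :
    ∑ q : Option ι × Ex ρ m, C ((G q.1).coeff q.2.1) * isys ι P g m q =
      rename Sum.inr (P * aeval g (G none)) + univ fun i => P * aeval g (G (some i)) := by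
  have h1 : ∀ o : Option ι, ∑ ν : Ex ρ m, C ((G o).coeff ν.1) * isys ι P g m (o, ν) =
      yv o * rename Sum.inr (P * aeval g (G o)) := by
    intro o
    rw [← sys_sum P g m (G o) (hG o), map_sum, Finset.mul_sum]
    refine Finset.sum_congr rfl fun ν _ => ?_
    rw [isys, map_mul (rename Sum.inr) (C _), rename_C]
    ring
  rw [Fintype.sum_prod_type, Fintype.sum_option]
  simp only [h1]
  rw [yv, one_mul, univ]
  rfl

variable (p : ι → σ)

/-- the new variables in the chart -/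
noncomputable def yx : Option ι → MvPowerSeries (ι ⊕ σ) ℂ
  | none => 1
  | some i => ux p i

theorem sb_prod_X (k : σ → ℕ) (hk : ∀ i, k (p i) = 0) :
    sb p (∏ t, (MvPowerSeries.X t : MvPowerSeries σ ℂ) ^ k t) =
      ∏ q : ι ⊕ σ, MvPowerSeries.X q ^ (Sum.elim (fun _ => 0) k q : ℕ) := by
  rw [Fintype.prod_sum_type]
  simp only [Sum.elim_inl, Sum.elim_inr, pow_zero, Finset.prod_const_one, one_mul]
  rw [map_prod]
  refine Finset.prod_congr rfl fun t _ => ?_
  rw [map_pow, sb_X]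
  by_cases h : k t = 0
  · rw [h, pow_zero, pow_zero]
  · rw [nx_of_ne p t fun i hi => h (by rw [← hi, hk])]

variable {P : MvPolynomial σ ℂ} {g : ρ → MvPolynomial σ ℂ} {κ a' a : σ → ℕ}

theorem aeval_new (x : σ → MvPowerSeries σ ℂ) (o : Option ι) (f : MvPolynomial σ ℂ) :
    aeval (Sum.elim (ux p) fun s => sb p (x s)) (yv o * rename Sum.inr f) =
      yx p o * sb p (aeval x f) := by
  rw [map_mul, aeval_rename]
  congr 1
  · cases o with
    | none => exact map_one _
    | some i => exact aeval_X _ _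
  · rw [← AlgHom.comp_apply, comp_aeval]
    rfl

/-- the chart for the linear system of the ideal -/
noncomputable def ils (Λ : Loc P g κ a' a) (m : ℕ) (hp : Function.Injective p)
    (hκ : ∀ i, κ (p i) = 0) (hA : ∀ i, a' (p i) + m * a (p i) = 0) :
    LS (isys ι P g m) (Sum.elim (fun _ => 0) κ)
      (Sum.elim (fun _ => 0) fun t => a' t + m * a t) where
  x := Sum.elim (ux p) fun s => sb p (Λ.x s)
  U := MvPowerSeries.C ((-2) ^ Fintype.card ι) * sb p Λ.U
  h q := yx p q.1 * sb p (Λ.V * ∏ j, Λ.w j ^ q.2.1 j)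
  jac := by
    rw [jac_sb p hp, Λ.jac, map_mul (sb p), sb_prod_X p κ hκ]
    ring
  hU := by
    rw [map_mul, MvPowerSeries.constantCoeff_C, sb_const]
    exact mul_ne_zero (pow_ne_zero _ (by norm_num)) Λ.hU
  hG q := by
    have h1 := Λ.form m (monomial q.2.1 1) (isHomogeneous_monomial _ q.2.2)
    have h2 : ∀ {S : Type} [CommRing S] [Algebra ℂ S] (f : ρ → S),
        aeval f (monomial q.2.1 (1 : ℂ)) = ∏ j, f j ^ q.2.1 j := by
      intro S _ _ f
      rw [aeval_monomial, map_one, one_mul, Finsupp.prod_fintype _ _ (fun i => pow_zero _)]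
    rw [h2, h2] at h1
    rw [isys, aeval_new, h1, map_mul (sb p), sb_prod_X p _ hA]
    ring

theorem ils_mem (Λ : Loc P g κ a' a) (m : ℕ) (hp : Function.Injective p)
    (hκ : ∀ i, κ (p i) = 0) (hA : ∀ i, a' (p i) + m * a (p i) = 0)
    (H : Option ι → MvPolynomial ρ ℂ) (hH : ∀ o, (H o).IsHomogeneous m) :
    (ils p Λ m hp hκ hA).mem (fun q => (H q.1).coeff q.2.1) =
      sb p (Λ.V * aeval Λ.w (H none)) + ∑ i, ux p i * sb p (Λ.V * aeval Λ.w (H (some i))) := by
  have h1 : ∀ o : Option ι, ∑ ν : Ex ρ m, MvPowerSeries.C ((H o).coeff ν.1) *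
      (yx p o * sb p (Λ.V * ∏ j, Λ.w j ^ ν.1 j)) = yx p o * sb p (Λ.V * aeval Λ.w (H o)) := by
    intro o
    rw [form_expand m (H o) (hH o), Finset.mul_sum, map_sum, Finset.mul_sum]
    refine Finset.sum_congr rfl fun ν _ => ?_
    rw [MvPowerSeries.algebraMap_apply, Algebra.algebraMap_self, RingHom.id_apply,
      mul_left_comm Λ.V, map_mul (sb p) (MvPowerSeries.C _), sb_C]
    ring
  rw [LS.mem, Fintype.sum_prod_type, Fintype.sum_option]
  have h2 : ∀ o : Option ι, ∑ ν : Ex ρ m, MvPowerSeries.C ((H o).coeff ν.1) *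
      (ils p Λ m hp hκ hA).h (o, ν) = yx p o * sb p (Λ.V * aeval Λ.w (H o)) := h1
  simp only [h2]
  rw [yx, one_mul]
  rfl

theorem ils_hv (Λ : Loc P g κ a' a) (m : ℕ) (hp : Function.Injective p)
    (hκ : ∀ i, κ (p i) = 0) (hA : ∀ i, a' (p i) + m * a (p i) = 0) (hv : ∃ ν, Λ.v m ν ≠ 0) :
    ∃ q, MvPowerSeries.constantCoeff ((ils p Λ m hp hκ hA).h q) ≠ 0 := by
  obtain ⟨ν, hν⟩ := hv
  refine ⟨(none, ν), ?_⟩
  have h1 : (ils p Λ m hp hκ hA).h (none, ν) = 1 * sb p (Λ.V * ∏ j, Λ.w j ^ ν.1 j) := rfl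
  rw [h1, one_mul, sb_const, map_mul, map_prod]
  simp only [map_pow]
  exact hν

/-- the power series which belong to the dual vectors -/
noncomputable def lser (w : ρ → MvPowerSeries σ ℂ) (l : ρ → ℂ) : MvPowerSeries σ ℂ :=
  ∑ j, algebraMap ℂ (MvPowerSeries σ ℂ) (l j) * w j

theorem coeff_lser (w : ρ → MvPowerSeries σ ℂ) (l : ρ → ℂ) (μ : σ →₀ ℕ) :
    MvPowerSeries.coeff μ (lser w l) = ∑ j, l j * MvPowerSeries.coeff μ (w j) := by
  rw [lser, map_sum]
  refine Finset.sum_congr rfl fun j _ => ?_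
  rw [MvPowerSeries.algebraMap_apply, Algebra.algebraMap_self, RingHom.id_apply,
    MvPowerSeries.coeff_C_mul]

theorem const_lser (w : ρ → MvPowerSeries σ ℂ) (l : ρ → ℂ) :
    MvPowerSeries.constantCoeff (lser w l) = ∑ j, l j * MvPowerSeries.constantCoeff (w j) := by
  have := coeff_lser w l 0
  simpa only [MvPowerSeries.coeff_zero_eq_constantCoeff_apply] using this

/-- the tangent member -/
noncomputable def tmem (R : Finset σ) (δ : σ → ℕ) (m : ℕ) (L : Option σ → ρ → ℂ) :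
    Option ι → MvPolynomial ρ ℂ
  | none => tform (R \ Finset.univ.image p) δ m L
  | some i => lin (L (some (p i))) * lin (L none) ^ (m - 1)

theorem tmem_homog (R : Finset σ) (δ : σ → ℕ) (hδ : ∀ t, δ t = 2 ∨ δ t = 3) (m : ℕ) (hm : 3 ≤ m)
    (L : Option σ → ρ → ℂ) (o : Option ι) : (tmem p R δ m L o).IsHomogeneous m := by
  cases o with
  | none => exact tform_homog _ _ _ _ fun t _ => by rcases hδ t with h | h <;> omega
  | some i =>
    have := (lin_homog (L (some (p i)))).mul ((lin_homog (L none)).pow (m - 1))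
    rw [one_mul, Nat.add_sub_cancel' (by omega : 1 ≤ m)] at this
    exact this

/-- **The tangent member, in the chart.** -/
theorem tmem_tan (Λ : Loc P g κ a' a) (m : ℕ) (hm : 3 ≤ m) (hp : Function.Injective p)
    (hκ : ∀ i, κ (p i) = 0) (hA : ∀ i, a' (p i) + m * a (p i) = 0)
    {e : σ → ℕ} (he : ∀ t, 2 ≤ e t) (R : Finset σ) (heR : ∀ t, t ∉ R → 4 ≤ e t)
    (hpR : ∀ i, p i ∈ R) (δ : σ → ℕ) (hδ : ∀ t, δ t = 2 ∨ δ t = 3)
    (heδ : ∀ t ∈ R, e t * δ t = 6) (hδp : ∀ i, δ (p i) = 2) (L : Option σ → ρ → ℂ)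
    (hL0 : ∀ t ∈ R, ∑ j, L (some t) j * MvPowerSeries.constantCoeff (Λ.w j) = 0)
    (hL0' : ∑ j, L none j * MvPowerSeries.constantCoeff (Λ.w j) = 1)
    (hL1 : ∀ t ∈ R, ∀ s ∈ R, ∑ j, L (some t) j *
      MvPowerSeries.coeff (Finsupp.single s 1) (Λ.w j) = if s = t then 1 else 0) :
    Tan (Sum.elim (fun i => e (p i)) e) (Sum.elim (fun _ => 2) δ) (Finset.univ.disjSum R)
      (Sum.elim (fun _ : ι => -MvPowerSeries.constantCoeff Λ.V)
        fun _ => MvPowerSeries.constantCoeff Λ.V)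
      ((ils p Λ m hp hκ hA).mem fun q => (tmem p R δ m L q.1).coeff q.2.1) := by
  rw [ils_mem p Λ m hp hκ hA _ (tmem_homog p R δ hδ m hm L)]
  have h1 := tan_pairs p hp he R hpR δ hδ heδ hδp (fun t => lser Λ.w (L (some t)))
    (lser Λ.w (L none)) Λ.V m (fun t ht => ?_) (by rw [const_lser, hL0'])
  · refine (iff_of_eq (congrArg (Tan _ _ _ _) ?_)).1 h1
    congr 1
    · rw [tmem, aeval_tform]
      rfl
    · refine Finset.sum_congr rfl fun i _ => ?_
      rw [tmem, map_mul (aeval Λ.w), map_pow]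
      have h2 : ∀ l : ρ → ℂ, aeval Λ.w (lin l) = lser Λ.w l := by
        intro l
        simp only [VI.lin, lser, map_sum, map_mul, aeval_C, aeval_X]
      rw [h2, h2]
  · refine Wt.four he ?_ fun s hs => ?_
    · rw [map_sub, const_lser, hL0 t ht, MvPowerSeries.constantCoeff_X, sub_zero]
    · have hsR : s ∈ R := by
        by_contra h
        have := heR s h
        omega
      rw [map_sub, coeff_lser, hL1 t ht s hsR, MvPowerSeries.coeff_X]
      by_cases h : s = t
      · rw [if_pos h, if_pos (by rw [h]), sub_self]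
      · rw [if_neg h, if_neg, sub_self]
        intro h2
        rcases (Finsupp.single_eq_single_iff _ _ _ _).1 h2 with h3 | h3
        · exact h h3.1
        · exact absurd h3.1 one_ne_zero

end Pool.Agent.H63.VK
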