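import Pool.Agent.H63.VI.Theta

set_option autoImplicit false
set_option linter.unusedSectionVars false

/-! # The roots which come from a chart, for arbitrary linear systems -/

namespace Pool.Agent.H63.VK

open MvPolynomial Pool.Agent.H63.VG Pool.Agent.H63.VI Pool.Agent.H628R4.TP

variable {K τ : Type} [Fintype K] [Fintype τ] [DecidableEq τ]

/-- A chart in which the members of a linear system are multiples of a monomial. -/
structure LS (G : K → MvPolynomial τ ℂ) (κ A : τ → ℕ) where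
  x : τ → MvPowerSeries τ ℂ
  U : MvPowerSeries τ ℂ
  h : K → MvPowerSeries τ ℂ
  jac : (Matrix.of fun t i => MvPowerSeries.pderiv ℂ t (x i)).det =
    (∏ t, MvPowerSeries.X t ^ κ t) * U
  hU : MvPowerSeries.constantCoeff U ≠ 0
  hG : ∀ μ, aeval x (G μ) = (∏ t, MvPowerSeries.X t ^ A t) * h μ

/-- the power series which belongs to a member of the linear system -/
noncomputable def LS.mem {G : K → MvPolynomial τ ℂ} {κ A : τ → ℕ} (Λ : LS G κ A) (c : K → ℂ) :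
    MvPowerSeries τ ℂ := ∑ μ, MvPowerSeries.C (c μ) * Λ.h μ

theorem LS.aeval_mem {G : K → MvPolynomial τ ℂ} {κ A : τ → ℕ} (Λ : LS G κ A) (c : K → ℂ) :
    aeval Λ.x (∑ μ, C (c μ) * G μ) = (∏ t, MvPowerSeries.X t ^ A t) * Λ.mem c := by
  rw [map_sum, LS.mem, Finset.mul_sum]
  refine Finset.sum_congr rfl fun μ _ => ?_
  rw [map_mul, Λ.hG, aeval_C, MvPowerSeries.algebraMap_apply, Algebra.algebraMap_self,
    RingHom.id_apply]
  ring

theorem LS.const_mem {G : K → MvPolynomial τ ℂ} {κ A : τ → ℕ} (Λ : LS G κ A) (c : K → ℂ) :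
    MvPowerSeries.constantCoeff (Λ.mem c) = ∑ μ, c μ * MvPowerSeries.constantCoeff (Λ.h μ) := by
  rw [LS.mem, map_sum]
  refine Finset.sum_congr rfl fun μ _ => ?_
  rw [map_mul, MvPowerSeries.constantCoeff_C]

theorem prod_X_ne (A : τ → ℕ) : (∏ t, (MvPowerSeries.X t : MvPowerSeries τ ℂ) ^ A t) ≠ 0 :=
  Finset.prod_ne_zero_iff.2 fun t _ => pow_ne_zero _ (by
    intro h
    have := congrArg (MvPowerSeries.coeff (Finsupp.single t 1)) h
    rw [MvPowerSeries.coeff_X, if_pos rfl, map_zero] at this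
    exact one_ne_zero this)

theorem LS.ne {G : K → MvPolynomial τ ℂ} {κ A : τ → ℕ} (Λ : LS G κ A) {μ : K}
    (hμ : MvPowerSeries.constantCoeff (Λ.h μ) ≠ 0) : G μ ≠ 0 := by
  intro h0
  have h1 := Λ.hG μ
  rw [h0, map_zero] at h1
  have h2 := (mul_eq_zero.1 h1.symm).resolve_left (prod_X_ne A)
  rw [h2, map_zero] at hμ
  exact hμ rfl

/-- The tangent members: `h` is the sum of the `b_t X_t ^ (δ t)`, `t ∈ R`, and of terms of weight
greater than six. -/
structure Tan (e δ : τ → ℕ) (R : Finset τ) (bt : τ → ℂ) (h : MvPowerSeries τ ℂ) : Prop where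
  co : ∀ t ∈ R, MvPowerSeries.coeff (Finsupp.single t (δ t)) h = bt t
  wt : ∀ μ, MvPowerSeries.coeff μ h ≠ 0 →
    6 < VG.wt e μ ∨ ∃ t ∈ R, μ = Finsupp.single t (δ t)

theorem Tan.const {e δ : τ → ℕ} {R : Finset τ} {bt : τ → ℂ} {h : MvPowerSeries τ ℂ}
    (H : Tan e δ R bt h) (hδ : ∀ t, δ t = 2 ∨ δ t = 3) :
    MvPowerSeries.constantCoeff h = 0 := by
  by_contra h0
  rw [← MvPowerSeries.coeff_zero_eq_constantCoeff_apply] at h0
  rcases H.wt 0 h0 with h1 | ⟨t, -, h1⟩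
  · have h2 : VG.wt e (0 : τ →₀ ℕ) = 0 := by
      rw [VG.wt]
      exact Finset.sum_eq_zero fun t _ => by rw [Finsupp.zero_apply, mul_zero]
    omega
  · have h2 := DFunLike.congr_fun h1 t
    rw [Finsupp.zero_apply, Finsupp.single_eq_same] at h2
    rcases hδ t with h | h <;> omega

section Point

variable {F : Subfield ℂ} {G : K → MvPolynomial τ F} {κ A : τ → ℕ}
  (Λ : LS (fun μ => map (algebraMap F ℂ) (G μ)) κ A)
  (c : K → ℂ) (hind : AlgebraicIndependent F c) (b : Polynomial ℂ)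
  (hb : IsBFunction (member G c) b)
  (hv : ∃ μ, MvPowerSeries.constantCoeff (Λ.h μ) ≠ 0) (c0 : K → ℂ)
  (δ : τ → ℕ) (hδ : ∀ t, δ t = 2 ∨ δ t = 3) (bt : τ → ℂ)

include hv in
theorem ls_ne : ∃ μ, G μ ≠ 0 := by
  obtain ⟨μ, hμ⟩ := hv
  refine ⟨μ, fun h0 => Λ.ne hμ ?_⟩
  rw [h0, map_zero]

include hind hb hv hδ in
theorem ls_core (H : Tan (fun t => 6 / δ t) δ Finset.univ bt (Λ.mem c0))
    (z : F) (M : ℕ) (hM : M ≠ 0) (c' mm : ℕ) (hmc : mm + c' ≤ M)
    (hcase : ∀ (f0 f1 : MvPolynomial τ ℂ) (h0 h1 : MvPowerSeries τ ℂ),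
      aeval Λ.x f0 = (∏ t, MvPowerSeries.X t ^ A t) * h0 →
      aeval Λ.x f1 = (∏ t, MvPowerSeries.X t ^ A t) * h1 →
      MvPowerSeries.constantCoeff h1 = 1 →
      (∀ t, MvPowerSeries.coeff (Finsupp.single t (δ t)) h0 = bt t) →
      (∀ μ, MvPowerSeries.coeff μ h0 ≠ 0 →
        6 < VH.wt (fun t => 6 / δ t) μ ∨ ∃ t, μ = Finsupp.single t (δ t)) →
      ∀ (N : ℕ) (S : Finset (List (τ ⊕ τ))), (∀ w ∈ S, w.length ≤ N) →
      ∀ (r : List (τ ⊕ τ) → Polynomial (VH.KK M)) (Q : Polynomial (VH.KK M)),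
      C Q * VH.pen f0 f1 ^ N = ∑ w ∈ S, C (r w) * VH.pen f0 f1 ^ (N + 1 - w.length) *
        qq (VH.pen f0 f1) (Polynomial.C (algebraMap ℂ (VH.KK M) (z : ℂ) + VH.epsK M)) w →
      Polynomial.C ((VH.epsK M) ^ c') * Q = 0) :
    (Polynomial.X - Polynomial.C (z : ℂ)) ^ mm ∣ b := by
  refine VH.mult_main G c hind (ls_ne Λ hv) b hb z
    c0 (fun μ => MvPowerSeries.constantCoeff (Λ.h μ)) hv ?_ (VH.epsK M) (VH.piK M hM)
    (VH.piK_algebraMap M hM) (VH.piK_eps M hM) mm c' (fun ν hν x hx => ?_) ?_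
  · rw [← Λ.const_mem, H.const hδ]
  · exact VH.piK_zero M hM _ (by omega) x hx
  · intro e he N S hS r Q heq
    have hf0 := Λ.aeval_mem c0
    have hf1 := Λ.aeval_mem e
    refine hcase _ _ _ _ hf0 hf1 ?_ (fun t => H.co t (Finset.mem_univ t)) (fun μ hμ => ?_) N S hS
      r Q heq
    · rw [Λ.const_mem]
      exact he
    · rcases H.wt μ hμ with h | ⟨t, -, h⟩
      · exact Or.inl h
      · exact Or.inr ⟨t, h⟩

variable {T : Finset τ} {α : ℚ} (hT : VI.Rat κ A T α)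

theorem δ6 (hδ : ∀ t, δ t = 2 ∨ δ t = 3) (t : τ) : 6 / δ t ≠ 0 := by
  rcases hδ t with h | h <;> rw [h] <;> norm_num

theorem δ6' (hδ : ∀ t, δ t = 2 ∨ δ t = 3) (t : τ) : 6 / δ t * δ t = 6 := by
  rcases hδ t with h | h <;> simp only [h]

theorem δ0 (hδ : ∀ t, δ t = 2 ∨ δ t = 3) (t : τ) : δ t ≠ 0 := by
  rcases hδ t with h | h <;> rw [h] <;> norm_num

include hind hb hv hδ hT in
/-- **the order of the root, first case** -/
theorem ls_A (hbt : ∀ t, bt t ≠ 0) (H : Tan (fun t => 6 / δ t) δ Finset.univ bt (Λ.mem c0))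
    (hδn : ∀ n : ℕ, 1 ≤ n → α - ∑ t ∈ Finset.univ \ T, (1 : ℚ) / δ t ≠ n) :
    (Polynomial.X - Polynomial.C (-(α : ℂ))) ^ T.card ∣ b := by
  rcases Nat.eq_zero_or_pos T.card with h0 | h0
  · rw [h0, pow_zero]; exact one_dvd _
  have key := ls_core Λ c hind b hb hv c0 δ hδ bt H ((-α : ℚ) : F) T.card h0.ne' 0
    T.card (by omega) ?_
  · rwa [coe_neg] at key
  intro f0 f1 h0' h1 hf0 hf1 hh1 hb' hh N S hS r Q heq
  rw [pow_zero, map_one, one_mul]
  rw [coe_neg] at heq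
  refine VH.case_A (fun t => 6 / δ t) (fun t => δ6 δ hδ t)
    6 (by norm_num) δ (fun t => δ0 δ hδ t) (fun t => δ6' δ hδ t) bt hbt Λ.x κ A Λ.U Λ.hU
    Λ.jac f0 f1 h0' h1 hf0 hf1 hh1 hb' hh (VH.epsK T.card)
    (fun r x hr => VH.epsK_unit T.card r x hr) (-(α : ℂ)) T (fun t ht => (hT.mem t ht).1)
    (fun t ht => hT.zero t ht) (fun t n hn => hT.hA δ hδ t n hn) (fun n => ?_)
    (fun n hn => hT.hND δ hδn n hn) (VH.epsK_pow _) N S hS r Q heq
  rw [neg_neg]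
  have h2 := hT.pos
  have h3 : (α + n : ℚ) ≠ 0 := by positivity
  exact_mod_cast h3

include hind hb hv hδ hT in
/-- **the order of the root, second case** -/
theorem ls_B (hbt : ∀ t, bt t ≠ 0) (H : Tan (fun t => 6 / δ t) δ Finset.univ bt (Λ.mem c0))
    (hα : α = 1) (hδn : ∀ n : ℕ, 1 ≤ n → α - ∑ t ∈ Finset.univ \ T, (1 : ℚ) / δ t ≠ n) :
    (Polynomial.X - Polynomial.C (-(α : ℂ))) ^ (T.card + 1) ∣ b := by
  have key := ls_core Λ c hind b hb hv c0 δ hδ bt H ((-α : ℚ) : F) (T.card + 1)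
    (by omega) 0 (T.card + 1) (by omega) ?_
  · rwa [coe_neg] at key
  intro f0 f1 h0' h1 hf0 hf1 hh1 hb' hh N S hS r Q heq
  rw [pow_zero, map_one, one_mul]
  rw [coe_neg] at heq
  exact VH.case_B (fun t => 6 / δ t) (fun t => δ6 δ hδ t)
    6 (by norm_num) δ (fun t => δ0 δ hδ t) (fun t => δ6' δ hδ t) bt hbt Λ.x κ A Λ.U Λ.hU
    Λ.jac f0 f1 h0' h1 hf0 hf1 hh1 hb' hh (VH.epsK (T.card + 1))
    (fun r x hr => VH.epsK_unit (T.card + 1) r x hr) (-(α : ℂ)) T (fun t ht => (hT.mem t ht).1)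
    (fun t ht => hT.zero t ht) (fun t n hn => hT.hA δ hδ t n hn) (by rw [hα]; norm_num)
    (fun n hn => hT.hND δ hδn n hn) (VH.epsK_pow _) N S hS r Q heq

include hind hb hv hδ in
/-- **the root, weak version** -/
theorem ls_W (o : τ) (hbt : ∀ t, t ≠ o → bt t ≠ 0)
    (H : Tan (fun t => if t = o then 7 else 6 / δ t) δ (Finset.univ.erase o) bt (Λ.mem c0))
    (hT : VI.Rat κ A {o} α)
    (hδn : ∀ n : ℕ, 1 ≤ n → α - ∑ t ∈ Finset.univ \ {o}, (1 : ℚ) / δ t ≠ n) :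
    b.eval (-(α : ℂ)) = 0 := by
  have hz := coe_neg F α
  rw [← hz]
  refine gen_main G c hind (ls_ne Λ hv) b hb ((-α : ℚ) : F)
    c0 (fun μ => MvPowerSeries.constantCoeff (Λ.h μ)) hv ?_ ?_
  · rw [← Λ.const_mem, H.const hδ]
  · intro e' he'' N S hS r Q heq
    have hf0 := Λ.aeval_mem c0
    have hf1 := Λ.aeval_mem e'
    rw [hz] at heq
    have hA0 : A o ≠ 0 := (hT.mem o (Finset.mem_singleton_self o)).1
    refine chart_main (fun t => if t = o then 7 else 6 / δ t) (fun t => ?_) 6 δ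
      (fun t => if t = o then 0 else bt t) Λ.x o κ A Λ.U Λ.hU Λ.jac _ _ _ _
      hf0 hf1 ?_ (if_pos rfl) (fun t ht => ?_) (fun t _ => ?_) (fun t ht => ?_) (by norm_num)
      (fun t ht => ?_) (fun μ hμ => ?_) hA0 (-(α : ℂ)) ?_ (fun t _ n hn => hT.hA δ hδ t n hn)
      (fun n hn => ?_) N S hS r Q heq
    · by_cases h : t = o
      · simp only [h, if_true]; norm_num
      · simp only [h, if_false]; exact δ6 δ hδ t
    · rw [Λ.const_mem]; exact he''
    · simp only [ht, if_false]; exact hbt t ht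
    · exact δ0 δ hδ t
    · simp only [ht, if_false]; exact δ6' δ hδ t
    · simp only [ht, if_false]
      exact H.co t (Finset.mem_erase.2 ⟨ht, Finset.mem_univ _⟩)
    · rcases H.wt μ hμ with h | ⟨t, ht, h⟩
      · exact Or.inl h
      · exact Or.inr ⟨t, Finset.ne_of_mem_erase ht, h⟩
    · have h1 := hT.zero o (Finset.mem_singleton_self o)
      have h2 : (A o : ℂ) ≠ 0 := Nat.cast_ne_zero.2 hA0
      rw [eq_comm, neg_eq_iff_eq_neg, neg_neg, div_eq_iff h2]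
      linear_combination h1
    · have h1 := hT.hND δ hδn n hn
      rw [← Finset.sum_erase_add _ _ (Finset.mem_univ o), hT.zero o (Finset.mem_singleton_self o),
        zero_div, add_zero] at h1
      exact h1

end Point

end Pool.Agent.H63.VK
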