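import Pool.Agent.H63.VK.Lin
import Pool.Agent.W578.SI.Scale

set_option autoImplicit false
set_option linter.unusedSectionVars false

/-! # The roots which come from a chart, for general members of arbitrary linear systems -/

namespace Pool.Agent.H63.VK

open MvPolynomial Pool.Agent.H63.VG Pool.Agent.H63.VI Pool.Agent.H628R4.TP

theorem bfun_rename {σ τ : Type} (e : σ ≃ τ) (f : MvPolynomial σ ℂ) (b : Polynomial ℂ)
    (h : IsBFunction f b) : IsBFunction (rename e f) b := by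
  have := Pool.Agent.W578.SI.b_transfer (renameEquiv ℂ e) (Pool.Agent.W578.SI.rename_mem e) 1
    one_ne_zero f b h
  rwa [C_1, one_mul, renameEquiv_apply] at this

/-- the transfer, for any finite sets of variables -/
theorem transfer2 {K τ : Type} [Fintype K] [Fintype τ] (G : K → MvPolynomial τ ℂ)
    (hG : ∃ μ, G μ ≠ 0) (α : ℚ) (m : ℕ)
    (H : ∀ (θ : ℂ →+* ℂ) (a : K → ℂ),
      (∀ P : MvPolynomial K ℂ, eval₂ θ a P = 0 → P = 0) → ∀ b : Polynomial ℂ,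
      IsBFunction (∑ μ, C (a μ) * map θ (G μ)) b →
        (Polynomial.X - Polynomial.C (α : ℂ)) ^ (m + 1) ∣ b) :
    ∃ g : MvPolynomial K ℂ, g ≠ 0 ∧ ∀ a : K → ℂ, eval a g ≠ 0 → ∀ b : Polynomial ℂ,
      IsBFunction (∑ μ, C (a μ) * G μ) b →
        (Polynomial.X - Polynomial.C (α : ℂ)) ^ (m + 1) ∣ b := by
  obtain ⟨e⟩ : Nonempty (τ ≃ Fin (Fintype.card τ)) := ⟨Fintype.equivFin τ⟩
  obtain ⟨g, hg, hg'⟩ := transfer' (fun μ => rename e (G μ)) (by
    obtain ⟨μ, hμ⟩ := hG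
    exact ⟨μ, fun h => hμ ((map_eq_zero_iff _ (rename_injective e e.injective)).1 h)⟩) α m
    fun θ a ha b hb => by
      refine H θ a ha b ?_
      have h1 := bfun_rename e.symm _ b hb
      rw [map_sum] at h1
      refine (iff_of_eq (congrArg (fun f => IsBFunction f b) ?_)).1 h1
      refine Finset.sum_congr rfl fun μ _ => ?_
      rw [map_mul, rename_C, map_rename, rename_rename, Equiv.symm_comp_self, rename_id,
        AlgHom.id_apply]
  refine ⟨g, hg, fun a ha b hb => ?_⟩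
  refine hg' a ha b ?_
  have h1 := bfun_rename e _ b hb
  rw [map_sum] at h1
  refine (iff_of_eq (congrArg (fun f => IsBFunction f b) ?_)).1 h1
  refine Finset.sum_congr rfl fun μ _ => ?_
  rw [map_mul, rename_C]

section Trans

variable {K τ : Type} [Fintype K] [Fintype τ] [DecidableEq τ]
variable {G : K → MvPolynomial τ ℂ} {κ A : τ → ℕ}

/-- the conjugate of a chart -/
noncomputable def LS.trans (Λ : LS G κ A) (θ : ℂ →+* ℂ) :
    LS (fun μ => map (algebraMap θ.fieldRange ℂ) (map θ.rangeRestrictField (G μ))) κ A where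
  x t := MvPowerSeries.map θ (Λ.x t)
  U := MvPowerSeries.map θ Λ.U
  h μ := MvPowerSeries.map θ (Λ.h μ)
  jac := by
    have h1 := congrArg (MvPowerSeries.map θ) Λ.jac
    rw [map_mul, map_prod_X, RingHom.map_det] at h1
    rw [← h1]
    congr 1
    ext1 t i
    rw [Matrix.of_apply, RingHom.mapMatrix_apply, Matrix.map_apply, Matrix.of_apply,
      pderiv_map_ps]
  hU := by
    rw [MvPowerSeries.constantCoeff_map]
    exact fun h => Λ.hU ((map_eq_zero_iff θ θ.injective).1 h)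
  hG μ := by
    rw [map_map, fieldRange_comp, aeval_map_ps, Λ.hG, map_mul, map_prod_X]

theorem LS.trans_mem (Λ : LS G κ A) (θ : ℂ →+* ℂ) (c : K → ℂ) :
    (Λ.trans θ).mem (fun μ => θ (c μ)) = MvPowerSeries.map θ (Λ.mem c) := by
  rw [LS.mem, LS.mem, map_sum]
  refine Finset.sum_congr rfl fun μ _ => ?_
  rw [map_mul, MvPowerSeries.map_C]
  rfl

theorem Tan.trans {e δ : τ → ℕ} {R : Finset τ} {bt : τ → ℂ} {h : MvPowerSeries τ ℂ}
    (H : Tan e δ R bt h) (θ : ℂ →+* ℂ) :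
    Tan e δ R (fun t => θ (bt t)) (MvPowerSeries.map θ h) where
  co t ht := by rw [MvPowerSeries.coeff_map, H.co t ht]
  wt μ hμ := by
    refine H.wt μ fun h0 => hμ ?_
    rw [MvPowerSeries.coeff_map, h0, map_zero]

theorem ls_gen (Λ : LS G κ A) (hv : ∃ μ, MvPowerSeries.constantCoeff (Λ.h μ) ≠ 0) (α : ℚ) (M : ℕ)
    (hM : ∀ (θ : ℂ →+* ℂ) (c : K → ℂ), AlgebraicIndependent θ.fieldRange c → ∀ b : Polynomial ℂ,
      IsBFunction (member (fun μ => map θ.rangeRestrictField (G μ)) c) b →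
      (Polynomial.X - Polynomial.C (-(α : ℂ))) ^ M ∣ b) :
    ∃ Γ : MvPolynomial K ℂ, Γ ≠ 0 ∧ ∀ a : K → ℂ, eval a Γ ≠ 0 → ∀ b : Polynomial ℂ,
        IsBFunction (∑ μ, C (a μ) * G μ) b → (Polynomial.X - Polynomial.C (-(α : ℂ))) ^ M ∣ b := by
  rcases Nat.eq_zero_or_pos M with h0 | h0
  · exact ⟨1, one_ne_zero, fun _ _ b _ => by rw [h0, pow_zero]; exact one_dvd _⟩
  obtain ⟨M', rfl⟩ : ∃ M', M = M' + 1 := ⟨M - 1, by omega⟩
  have hcast : (((-α : ℚ)) : ℂ) = -(α : ℂ) := by push_cast; rfl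
  have hG : ∃ μ, G μ ≠ 0 := by
    obtain ⟨μ, hμ⟩ := hv
    exact ⟨μ, Λ.ne hμ⟩
  have hall : ∀ (θ : ℂ →+* ℂ) (c : K → ℂ),
      (∀ P : MvPolynomial K ℂ, eval₂ θ c P = 0 → P = 0) → ∀ b : Polynomial ℂ,
      IsBFunction (∑ μ, C (c μ) * map θ (G μ)) b →
        (Polynomial.X - Polynomial.C (((-α : ℚ)) : ℂ)) ^ (M' + 1) ∣ b := by
    intro θ c hc b hb
    rw [hcast]
    refine hM θ c ?_ b ?_
    · rw [algebraicIndependent_iff]
      intro P' hP'
      obtain ⟨P0, rfl⟩ := map_surjective θ.rangeRestrictField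
        (fun x => by
          obtain ⟨x, y, rfl⟩ := x
          exact ⟨y, rfl⟩) P'
      rw [aeval_def, eval₂_map, fieldRange_comp] at hP'
      rw [hc P0 hP', map_zero]
    · refine (iff_of_eq (congrArg (fun f => IsBFunction f b) ?_)).1 hb
      refine Finset.sum_congr rfl fun μ _ => ?_
      rw [map_map, fieldRange_comp]
  obtain ⟨Γ, hΓ, hΓ'⟩ := transfer2 G hG (-α) M' hall
  refine ⟨Γ, hΓ, fun a ha b hb => ?_⟩
  rw [← hcast]
  exact hΓ' a ha b hb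

end Trans

section Gen

variable {K τ : Type} [Fintype K] [Fintype τ] [DecidableEq τ]
variable {G : K → MvPolynomial τ ℂ} {κ A : τ → ℕ} (Λ : LS G κ A)
  (hv : ∃ μ, MvPowerSeries.constantCoeff (Λ.h μ) ≠ 0) (c0 : K → ℂ)
  (δ : τ → ℕ) (hδ : ∀ t, δ t = 2 ∨ δ t = 3) (bt : τ → ℂ) {α : ℚ}

include hv in
theorem trans_hv (θ : ℂ →+* ℂ) : ∃ μ, MvPowerSeries.constantCoeff ((Λ.trans θ).h μ) ≠ 0 := by
  obtain ⟨μ, hμ⟩ := hv
  refine ⟨μ, fun h => hμ ?_⟩
  have h1 : MvPowerSeries.constantCoeff (MvPowerSeries.map θ (Λ.h μ)) = 0 := h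
  rw [MvPowerSeries.constantCoeff_map] at h1
  exact (map_eq_zero_iff θ θ.injective).1 h1

include hv hδ in
theorem gen_A {T : Finset τ} (hT : VI.Rat κ A T α) (hbt : ∀ t, bt t ≠ 0)
    (H : Tan (fun t => 6 / δ t) δ Finset.univ bt (Λ.mem c0))
    (hδn : ∀ n : ℕ, 1 ≤ n → α - ∑ t ∈ Finset.univ \ T, (1 : ℚ) / δ t ≠ n) :
    ∃ Γ : MvPolynomial K ℂ, Γ ≠ 0 ∧ ∀ a : K → ℂ, eval a Γ ≠ 0 → ∀ b : Polynomial ℂ,
        IsBFunction (∑ μ, C (a μ) * G μ) b →
          (Polynomial.X - Polynomial.C (-(α : ℂ))) ^ (if α = 1 then T.card + 1 else T.card) ∣ b := by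
  refine ls_gen Λ hv α _ fun θ c hc b hb => ?_
  have hbt' : ∀ t, θ (bt t) ≠ 0 := fun t h => hbt t ((map_eq_zero_iff θ θ.injective).1 h)
  have H' := H.trans θ
  rw [← Λ.trans_mem] at H'
  split_ifs with h
  · exact ls_B (Λ.trans θ) c hc b hb (trans_hv Λ hv θ) _ δ hδ _ hT hbt' H' h hδn
  · exact ls_A (Λ.trans θ) c hc b hb (trans_hv Λ hv θ) _ δ hδ _ hT hbt' H' hδn

include hv hδ in
theorem gen_W (o : τ) (hT : VI.Rat κ A {o} α) (hbt : ∀ t, t ≠ o → bt t ≠ 0)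
    (H : Tan (fun t => if t = o then 7 else 6 / δ t) δ (Finset.univ.erase o) bt (Λ.mem c0))
    (hδn : ∀ n : ℕ, 1 ≤ n → α - ∑ t ∈ Finset.univ \ {o}, (1 : ℚ) / δ t ≠ n) :
    ∃ Γ : MvPolynomial K ℂ, Γ ≠ 0 ∧ ∀ a : K → ℂ, eval a Γ ≠ 0 → ∀ b : Polynomial ℂ,
        IsBFunction (∑ μ, C (a μ) * G μ) b →
          (Polynomial.X - Polynomial.C (-(α : ℂ))) ^ 1 ∣ b := by
  refine ls_gen Λ hv α _ fun θ c hc b hb => ?_
  have hbt' : ∀ t, t ≠ o → θ (bt t) ≠ 0 :=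
    fun t ht h => hbt t ht ((map_eq_zero_iff θ θ.injective).1 h)
  have H' := H.trans θ
  rw [← Λ.trans_mem] at H'
  rw [pow_one, Polynomial.dvd_iff_isRoot]
  exact ls_W (Λ.trans θ) c hc b hb (trans_hv Λ hv θ) _ δ hδ _ o hbt' H' hT hδn

end Gen

end Pool.Agent.H63.VK
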