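import Pool.Agent.H63.VI.Filt
import Pool.Agent.W574.SM.Chain

set_option autoImplicit false
set_option linter.unusedSectionVars false

/-! # The coordinates in which the hyperbolic pairs are diagonal -/

namespace Pool.Agent.H63.VK

open MvPowerSeries Pool.Agent.H63.VI

section Prod

variable {σ : Type} [Fintype σ] [DecidableEq σ] {e : σ → ℕ}

theorem wt_prod {κ : Type} (s : Finset κ) (N : κ → ℕ) (f : κ → MvPowerSeries σ ℂ)
    (H : ∀ i ∈ s, Wt e (N i) (f i)) : Wt e (∑ i ∈ s, N i) (∏ i ∈ s, f i) := by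
  classical
  induction s using Finset.induction_on with
  | empty => rw [Finset.sum_empty]; exact Wt.zero
  | insert i s hi ih =>
    rw [Finset.sum_insert hi, Finset.prod_insert hi]
    exact (H i (Finset.mem_insert_self _ _)).mul
      (ih fun j hj => H j (Finset.mem_insert_of_mem hj))

end Prod

variable {ι σ : Type} [Fintype ι] [DecidableEq ι] [Fintype σ] [DecidableEq σ] (p : ι → σ)

/-- the old coordinates -/
noncomputable def nx (t : σ) : MvPowerSeries (ι ⊕ σ) ℂ :=
  X (Sum.inr t) + ∑ i, if p i = t then X (Sum.inl i) else 0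

theorem nx_const (t : σ) : constantCoeff (nx p t) = 0 := by
  rw [nx, map_add, constantCoeff_X, zero_add, map_sum]
  refine Finset.sum_eq_zero fun i _ => ?_
  split_ifs
  · exact constantCoeff_X _
  · exact map_zero _

theorem nx_subst : HasSubst (nx p) := hasSubst_of_constantCoeff_zero (nx_const p)

theorem nx_of_ne (t : σ) (ht : ∀ i, p i ≠ t) : nx p t = X (Sum.inr t) := by
  rw [nx, Finset.sum_eq_zero fun i _ => if_neg (ht i), add_zero]

theorem nx_of (hp : Function.Injective p) (i : ι) :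
    nx p (p i) = X (Sum.inr (p i)) + X (Sum.inl i) := by
  rw [nx, Finset.sum_eq_single i, if_pos rfl]
  · intro j _ hj
    exact if_neg fun h => hj (hp h)
  · intro h; exact absurd (Finset.mem_univ _) h

/-- the substitution -/
noncomputable def sb : MvPowerSeries σ ℂ →ₐ[ℂ] MvPowerSeries (ι ⊕ σ) ℂ := substAlgHom (nx_subst p)

theorem sb_apply (f : MvPowerSeries σ ℂ) : sb p f = subst (nx p) f := by
  rw [sb, coe_substAlgHom]

theorem sb_X (t : σ) : sb p (X t) = nx p t := by
  rw [sb_apply, subst_X (nx_subst p)]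

theorem sb_const (f : MvPowerSeries σ ℂ) : constantCoeff (sb p f) = constantCoeff f := by
  rw [sb_apply]
  exact Pool.Agent.W574.SM.constantCoeff_subst' (nx_subst p) (nx_const p) f

theorem sb_C (r : ℂ) : sb p (C r) = C r := (sb p).commutes r

/-- the other coordinates -/
noncomputable def ux (i : ι) : MvPowerSeries (ι ⊕ σ) ℂ := X (Sum.inr (p i)) - X (Sum.inl i)

theorem wt_sb {e : σ → ℕ} {e' : ι ⊕ σ → ℕ} (h1 : ∀ t, e' (Sum.inr t) = e t)
    (h2 : ∀ i, e' (Sum.inl i) = e (p i)) {N : ℕ} {h : MvPowerSeries σ ℂ} (H : Wt e N h) :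
    Wt e' N (sb p h) := by
  intro μ hμ
  rw [sb_apply, coeff_subst (nx_subst p)] at hμ
  obtain ⟨d, hd⟩ : ∃ d : σ →₀ ℕ,
      coeff d h • coeff μ (d.prod fun s k => nx p s ^ k) ≠ 0 := by
    by_contra hcon
    push Not at hcon
    exact hμ (finsum_eq_zero_of_forall_eq_zero hcon)
  have hd1 : coeff d h ≠ 0 := left_ne_zero_of_mul (by rwa [smul_eq_mul] at hd)
  have hd2 : coeff μ (d.prod fun s k => nx p s ^ k) ≠ 0 :=
    right_ne_zero_of_mul (by rwa [smul_eq_mul] at hd)
  refine (H d hd1).trans ?_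
  rw [Finsupp.prod_fintype _ _ (fun i => pow_zero _)] at hd2
  refine wt_prod Finset.univ (fun t => e t * d t) (fun t => nx p t ^ d t) (fun t _ => ?_) μ hd2
  refine Wt.pow ?_ _
  rw [nx]
  refine Wt.add ?_ (Wt.sum _ _ fun i _ => ?_)
  · rw [← h1]
    exact Wt.X _
  · split_ifs with h
    · rw [← h, ← h2]
      exact Wt.X _
    · intro ν hν
      rw [map_zero] at hν
      exact absurd rfl hν

section Jac

theorem pderiv_nx_inr (q t : σ) : pderiv ℂ (Sum.inr q) (nx p t) = if q = t then 1 else 0 := by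
  rw [nx, map_add, map_sum, Finset.sum_eq_zero, add_zero]
  · by_cases h : q = t
    · rw [if_pos h, h, pderiv_X_self]
    · rw [if_neg h, pderiv_X_of_ne (fun h' => h (Sum.inr_injective h').symm)]
  · intro i _
    split_ifs
    · exact pderiv_X_of_ne (by simp)
    · exact map_zero _

theorem pderiv_nx_inl (k : ι) (t : σ) :
    pderiv ℂ (Sum.inl k) (nx p t) = if p k = t then 1 else 0 := by
  rw [nx, map_add, map_sum, pderiv_X_of_ne (by simp), zero_add, Finset.sum_eq_single k]
  · split_ifs
    · exact pderiv_X_self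
    · exact map_zero _
  · intro i _ hi
    split_ifs
    · exact pderiv_X_of_ne (fun h => hi (Sum.inl_injective h))
    · exact map_zero _
  · intro h; exact absurd (Finset.mem_univ _) h

theorem pderiv_sb (q : ι ⊕ σ) (f : MvPowerSeries σ ℂ) :
    pderiv ℂ q (sb p f) = ∑ t, sb p (pderiv ℂ t f) * pderiv ℂ q (nx p t) := by
  rw [sb_apply, Pool.Agent.W574.SM.pderiv_subst (nx_subst p)]
  simp only [sb_apply]

theorem jac_sb (hp : Function.Injective p) (x : σ → MvPowerSeries σ ℂ) :
    (Matrix.of fun q i => pderiv ℂ q (Sum.elim (ux p) (fun s => sb p (x s)) i)).det =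
      C ((-2) ^ Fintype.card ι) * sb p (Matrix.of fun t i => pderiv ℂ t (x i)).det := by
  obtain ⟨E, hE⟩ : ∃ E : Matrix ι σ (MvPowerSeries (ι ⊕ σ) ℂ),
    E = Matrix.of fun k t => if p k = t then 1 else 0 := ⟨_, rfl⟩
  obtain ⟨J, hJ⟩ : ∃ J : Matrix σ σ (MvPowerSeries (ι ⊕ σ) ℂ),
    J = Matrix.of fun t s => sb p (pderiv ℂ t (x s)) := ⟨_, rfl⟩
  have hM : (Matrix.of fun q i => pderiv ℂ q (Sum.elim (ux p) (fun s => sb p (x s)) i)) =
      Matrix.fromBlocks (-1) E E.transpose 1 * Matrix.fromBlocks 1 0 0 J := by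
    rw [Matrix.fromBlocks_multiply]
    simp only [Matrix.mul_one, Matrix.mul_zero, add_zero, zero_add, Matrix.one_mul]
    ext1 q i
    rcases q with k | q <;> rcases i with i | s
    · rw [Matrix.of_apply, Matrix.fromBlocks_apply₁₁, Sum.elim_inl, ux, map_sub,
        pderiv_X_of_ne (by simp), zero_sub, Matrix.neg_apply, Matrix.one_apply]
      by_cases h : k = i
      · rw [if_pos h, h, pderiv_X_self]
      · rw [if_neg h, pderiv_X_of_ne (fun h' => h (Sum.inl_injective h').symm)]
    · rw [Matrix.of_apply, Matrix.fromBlocks_apply₁₂, Sum.elim_inr, pderiv_sb, Matrix.mul_apply]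
      refine Finset.sum_congr rfl fun t _ => ?_
      rw [pderiv_nx_inl, hE, hJ, Matrix.of_apply, Matrix.of_apply, mul_comm]
    · rw [Matrix.of_apply, Matrix.fromBlocks_apply₂₁, Sum.elim_inl, ux, map_sub,
        pderiv_X_of_ne (i := Sum.inr q) (j := Sum.inl i) (by simp), sub_zero,
        Matrix.transpose_apply, hE, Matrix.of_apply]
      by_cases h : p i = q
      · rw [if_pos h, h, pderiv_X_self]
      · rw [if_neg h, pderiv_X_of_ne (fun h' => h (Sum.inr_injective h'))]
    · rw [Matrix.of_apply, Matrix.fromBlocks_apply₂₂, Sum.elim_inr, pderiv_sb, hJ,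
        Matrix.of_apply, Finset.sum_eq_single q]
      · rw [pderiv_nx_inr, if_pos rfl, mul_one]
      · intro t _ ht
        rw [pderiv_nx_inr, if_neg (Ne.symm ht), mul_zero]
      · intro h; exact absurd (Finset.mem_univ _) h
  rw [hM, Matrix.det_mul, Matrix.det_fromBlocks_one₂₂, Matrix.det_fromBlocks_zero₂₁,
    Matrix.det_one, one_mul]
  congr 1
  · have h1 : (-1 - E * E.transpose) = (-2 : MvPowerSeries (ι ⊕ σ) ℂ) •
        (1 : Matrix ι ι (MvPowerSeries (ι ⊕ σ) ℂ)) := by
      ext1 k l
      rw [Matrix.sub_apply, Matrix.neg_apply, Matrix.smul_apply, Matrix.mul_apply,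
        Finset.sum_eq_single (p k)]
      · rw [Matrix.transpose_apply, hE, Matrix.of_apply, Matrix.of_apply, if_pos rfl, one_mul,
          Matrix.one_apply, smul_eq_mul]
        by_cases h : k = l
        · rw [if_pos h, if_pos (by rw [h])]
          norm_num
        · rw [if_neg h, if_neg (fun h' => h (hp h').symm)]
          ring
      · intro t _ ht
        rw [hE, Matrix.of_apply, if_neg (Ne.symm ht), zero_mul]
      · intro h; exact absurd (Finset.mem_univ _) h
    rw [h1, Matrix.det_smul, Matrix.det_one, mul_one, map_pow, map_neg]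
    congr 2
  · have h2 : J = (sb p : MvPowerSeries σ ℂ →+* MvPowerSeries (ι ⊕ σ) ℂ).mapMatrix
        (Matrix.of fun t i => pderiv ℂ t (x i)) := by
      rw [hJ]; rfl
    rw [h2, ← RingHom.map_det]
    rfl

end Jac

end Pool.Agent.H63.VK
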