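import Pool.Agent.H63.VK.Sub
import Pool.Agent.H63.VK.LinGen

set_option autoImplicit false
set_option linter.unusedSectionVars false

/-! # Tangent members with hyperbolic pairs -/

namespace Pool.Agent.H63.VK

open MvPowerSeries Pool.Agent.H63.VI

section General

variable {τ : Type} [Fintype τ] [DecidableEq τ] {e : τ → ℕ}

theorem tan_of (δ : τ → ℕ) (R : Finset τ) (bt : τ → ℂ) (H : MvPowerSeries τ ℂ)
    (hδ : ∀ t, δ t = 2 ∨ δ t = 3) (heδ : ∀ t ∈ R, e t * δ t = 6)
    (hW : Wt e 7 (H - ∑ t ∈ R, C (bt t) * X t ^ δ t)) : Tan e δ R bt H := by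
  have h6 : ∀ μ, coeff μ (∑ t ∈ R, C (bt t) * (X t : MvPowerSeries τ ℂ) ^ δ t) =
      ∑ t ∈ R, if μ = Finsupp.single t (δ t) then bt t else 0 := by
    intro μ
    rw [map_sum]
    refine Finset.sum_congr rfl fun t _ => ?_
    rw [coeff_C_mul, coeff_X_pow, mul_ite, mul_one, mul_zero]
  constructor
  · intro t ht
    have h7 : coeff (Finsupp.single t (δ t)) (H - ∑ t ∈ R, C (bt t) * X t ^ δ t) = 0 := by
      by_contra h7
      have h8 := hW _ h7
      rw [wt_single, heδ t ht] at h8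
      omega
    rw [map_sub, sub_eq_zero] at h7
    rw [h7, h6, Finset.sum_eq_single t]
    · rw [if_pos rfl]
    · intro s hs hst
      rw [if_neg]
      intro h
      have := (Finsupp.single_eq_single_iff _ _ _ _).1 h
      rcases this with h9 | h9
      · exact hst h9.1.symm
      · rcases hδ t with h' | h' <;> omega
    · intro h; exact absurd ht h
  · intro μ hμ
    by_contra hcon
    rw [not_or, not_lt] at hcon
    have h7 : coeff μ (H - ∑ t ∈ R, C (bt t) * X t ^ δ t) = 0 := by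
      by_contra h7
      have h8 := hW _ h7
      omega
    rw [map_sub, sub_eq_zero] at h7
    rw [h7, h6] at hμ
    obtain ⟨t, ht, ht'⟩ := Finset.exists_ne_zero_of_sum_ne_zero hμ
    refine hcon.2 ⟨t, ht, ?_⟩
    by_contra h9
    rw [if_neg h9] at ht'
    exact ht' rfl

theorem tangent_wt (he : ∀ t, 2 ≤ e t) (R : Finset τ) (δ : τ → ℕ)
    (hδ : ∀ t ∈ R, δ t = 2 ∨ δ t = 3)
    (heδ : ∀ t ∈ R, e t * δ t = 6) (u : τ → MvPowerSeries τ ℂ) (u0 V : MvPowerSeries τ ℂ) (m : ℕ)
    (hu : ∀ t ∈ R, Wt e 4 (u t - X t)) (hu0 : constantCoeff u0 = 1) :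
    Wt e 7 (V * (∑ t ∈ R, u t ^ δ t * u0 ^ (m - δ t)) -
      C (constantCoeff V) * ∑ t ∈ R, X t ^ δ t) := by
  have h1 : ∀ t ∈ R, Wt e 7 (u t ^ δ t - X t ^ δ t) := by
    intro t ht
    have h2 := heδ t ht
    have h3 : Wt e (e t) (u t) := by
      have h4 : e t ≤ 4 := by rcases hδ t ht with h | h <;> rw [h] at h2 <;> omega
      have := ((hu t ht).mono h4).add (Wt.X t)
      rwa [sub_add_cancel] at this
    rcases hδ t ht with h | h
    · rw [h] at h2 ⊢
      have h4 : u t ^ 2 - X t ^ 2 = (u t - X t) * (u t + X t) := by ring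
      rw [h4]
      exact ((hu t ht).mul (h3.add (Wt.X t))).mono (by omega)
    · rw [h] at h2 ⊢
      have h4 : u t ^ 3 - X t ^ 3 = (u t - X t) * (u t * u t + u t * X t + X t * X t) := by ring
      rw [h4]
      exact ((hu t ht).mul (((h3.mul h3).add (h3.mul (Wt.X t))).add
        ((Wt.X t).mul (Wt.X t)))).mono (by omega)
  have h2 : ∀ k : ℕ, Wt e 1 (u0 ^ k - 1) := by
    intro k
    refine Wt.of_const he ?_
    rw [map_sub, map_pow, hu0, one_pow, map_one, sub_self]
  have hX6 : ∀ t ∈ R, Wt e 6 ((X t : MvPowerSeries τ ℂ) ^ δ t) := by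
    intro t ht
    rw [← heδ t ht]
    exact (Wt.X t).pow _
  have hV : Wt e 1 (V - C (constantCoeff V)) := by
    refine Wt.of_const he ?_
    rw [map_sub, constantCoeff_C, sub_self]
  have h3 : ∀ t ∈ R, Wt e 7 (u t ^ δ t * u0 ^ (m - δ t) - X t ^ δ t) := by
    intro t ht
    have h4 : u t ^ δ t * u0 ^ (m - δ t) - X t ^ δ t =
        (u t ^ δ t - X t ^ δ t) * u0 ^ (m - δ t) + X t ^ δ t * (u0 ^ (m - δ t) - 1) := by ring
    rw [h4]
    exact (((h1 t ht).mul Wt.zero).mono (by omega)).add (((hX6 t ht).mul (h2 _)).mono (by omega))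
  have h5 : V * (∑ t ∈ R, u t ^ δ t * u0 ^ (m - δ t)) -
    C (constantCoeff V) * ∑ t ∈ R, X t ^ δ t =
    V * (∑ t ∈ R, (u t ^ δ t * u0 ^ (m - δ t) - X t ^ δ t)) +
      (V - C (constantCoeff V)) * ∑ t ∈ R, X t ^ δ t := by
    rw [Finset.sum_sub_distrib]
    ring
  rw [h5]
  exact (((Wt.zero (h := V)).mul (Wt.sum _ _ h3)).mono (by omega)).add
    ((hV.mul (Wt.sum _ _ hX6)).mono (by omega))

theorem pair_wt (he : ∀ t, 2 ≤ e t) (t : τ) (het : e t = 3) (u u0 V : MvPowerSeries τ ℂ) (m : ℕ)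
    (hu : Wt e 4 (u - X t)) (hu0 : constantCoeff u0 = 1) :
    Wt e 4 (V * (u * u0 ^ (m - 1)) - C (constantCoeff V) * X t) := by
  have h2 : Wt e 1 (u0 ^ (m - 1) - 1) := by
    refine Wt.of_const he ?_
    rw [map_sub, map_pow, hu0, one_pow, map_one, sub_self]
  have hV : Wt e 1 (V - C (constantCoeff V)) := by
    refine Wt.of_const he ?_
    rw [map_sub, constantCoeff_C, sub_self]
  have hX : Wt e 3 (X t : MvPowerSeries τ ℂ) := by
    rw [← het]; exact Wt.X t
  have h5 : V * (u * u0 ^ (m - 1)) - C (constantCoeff V) * X t =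
      V * ((u - X t) * u0 ^ (m - 1)) + V * (X t * (u0 ^ (m - 1) - 1)) +
        (V - C (constantCoeff V)) * X t := by ring
  rw [h5]
  exact ((((Wt.zero (h := V)).mul (hu.mul Wt.zero)).mono (by omega)).add
    (((Wt.zero (h := V)).mul (hX.mul h2)).mono (by omega))).add ((hV.mul hX).mono (by omega))

end General

variable {ι σ : Type} [Fintype ι] [DecidableEq ι] [Fintype σ] [DecidableEq σ] (p : ι → σ)

/-- **The tangent member with hyperbolic pairs.** -/
theorem tan_pairs (hp : Function.Injective p) {e : σ → ℕ} (he : ∀ t, 2 ≤ e t) (R : Finset σ)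
    (hpR : ∀ i, p i ∈ R) (δ : σ → ℕ) (hδ : ∀ t, δ t = 2 ∨ δ t = 3)
    (heδ : ∀ t ∈ R, e t * δ t = 6) (hδp : ∀ i, δ (p i) = 2) (u : σ → MvPowerSeries σ ℂ)
    (u0 V : MvPowerSeries σ ℂ) (m : ℕ)
    (hu : ∀ t ∈ R, Wt e 4 (u t - X t)) (hu0 : constantCoeff u0 = 1) :
    Tan (Sum.elim (fun i => e (p i)) e) (Sum.elim (fun _ => 2) δ) (Finset.univ.disjSum R)
      (Sum.elim (fun _ : ι => -constantCoeff V) fun _ => constantCoeff V)
      (sb p (V * ∑ t ∈ R \ Finset.univ.image p, u t ^ δ t * u0 ^ (m - δ t)) +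
        ∑ i, ux p i * sb p (V * (u (p i) * u0 ^ (m - 1)))) := by
  have hep : ∀ i, e (p i) = 3 := fun i => by
    have h1 := heδ (p i) (hpR i)
    rw [hδp i] at h1
    omega
  refine tan_of _ _ _ _ (fun q => ?_) (fun q hq => ?_) ?_
  · rcases q with i | t
    · exact Or.inl rfl
    · exact hδ t
  · rcases q with i | t
    · simp only [Sum.elim_inl, hep i]
    · exact heδ t (Finset.inr_mem_disjSum.1 hq)
  have hne : ∀ t ∈ R \ Finset.univ.image p, nx p t = X (Sum.inr t) := by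
    intro t ht
    refine nx_of_ne p t fun i hi => (Finset.mem_sdiff.1 ht).2 ?_
    rw [← hi]
    exact Finset.mem_image_of_mem p (Finset.mem_univ i)
  have hsum : ∑ q ∈ (Finset.univ : Finset ι).disjSum R,
      C (Sum.elim (fun _ : ι => -constantCoeff V) (fun _ => constantCoeff V) q) *
        (X q : MvPowerSeries (ι ⊕ σ) ℂ) ^ (Sum.elim (fun _ => 2) δ q : ℕ) =
      C (constantCoeff V) * ∑ t ∈ R \ Finset.univ.image p, X (Sum.inr t) ^ δ t +
        ∑ i, C (constantCoeff V) * (X (Sum.inr (p i)) ^ 2 - X (Sum.inl i) ^ 2) := by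
    rw [Finset.sum_disjSum]
    simp only [Sum.elim_inl, Sum.elim_inr]
    have h1 : Finset.univ.image p ⊆ R := by
      intro t ht
      obtain ⟨i, -, rfl⟩ := Finset.mem_image.1 ht
      exact hpR i
    rw [← Finset.sum_sdiff h1, Finset.sum_image (fun i _ j _ h => hp h), Finset.mul_sum]
    have h2 : ∀ i, C (constantCoeff V) * ((X (Sum.inr (p i)) : MvPowerSeries (ι ⊕ σ) ℂ) ^ 2 -
        X (Sum.inl i) ^ 2) = C (constantCoeff V) * X (Sum.inr (p i)) ^ δ (p i) +
          C (-constantCoeff V) * X (Sum.inl i) ^ 2 := by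
      intro i
      rw [hδp i, map_neg]
      ring
    rw [Finset.sum_congr rfl fun i _ => h2 i, Finset.sum_add_distrib]
    ring
  rw [hsum]
  have h3 := wt_sb p (e' := Sum.elim (fun i => e (p i)) e) (fun _ => rfl) (fun _ => rfl)
    (tangent_wt he (R \ Finset.univ.image p) δ (fun t _ => hδ t)
      (fun t ht => heδ t (Finset.mem_sdiff.1 ht).1) u u0 V m
      (fun t ht => hu t (Finset.mem_sdiff.1 ht).1) hu0)
  have h4 : ∀ i, Wt (Sum.elim (fun i => e (p i)) e) 7
      (ux p i * sb p (V * (u (p i) * u0 ^ (m - 1)) - C (constantCoeff V) * X (p i))) := by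
    intro i
    have h5 := wt_sb p (e' := Sum.elim (fun i => e (p i)) e) (fun _ => rfl) (fun _ => rfl)
      (pair_wt he (p i) (hep i) (u (p i)) u0 V m (hu _ (hpR i)) hu0)
    have h6 : Wt (Sum.elim (fun i => e (p i)) e) 3 (ux p i) := by
      refine Wt.sub ?_ ?_
      · have := Wt.X (e := (Sum.elim (fun i => e (p i)) e)) (Sum.inr (p i))
        rwa [Sum.elim_inr, hep i] at this
      · have := Wt.X (e := (Sum.elim (fun i => e (p i)) e)) (Sum.inl i)
        rwa [Sum.elim_inl, hep i] at this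
    exact (h6.mul h5).mono (by omega)
  have h7 := h3.add (Wt.sum Finset.univ _ fun i _ => h4 i)
  refine (iff_of_eq (congrArg (Wt _ 7) ?_)).1 h7
  rw [map_sub, map_mul (sb p) (C _), sb_C, map_sum (sb p) _ (R \ _)]
  have h8 : ∑ t ∈ R \ Finset.univ.image p, sb p (X t ^ δ t) =
      ∑ t ∈ R \ Finset.univ.image p, X (Sum.inr t) ^ δ t := by
    refine Finset.sum_congr rfl fun t ht => ?_
    rw [map_pow, sb_X, hne t ht]
  have h9 : ∀ i, ux p i * sb p (V * (u (p i) * u0 ^ (m - 1)) - C (constantCoeff V) * X (p i)) =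
      ux p i * sb p (V * (u (p i) * u0 ^ (m - 1))) -
        C (constantCoeff V) * (X (Sum.inr (p i)) ^ 2 - X (Sum.inl i) ^ 2) := by
    intro i
    rw [map_sub, map_mul (sb p) (C _), sb_C, sb_X, nx_of p hp, ux]
    ring
  rw [h8, Finset.sum_congr rfl fun i _ => h9 i, Finset.sum_sub_distrib]
  ring

end Pool.Agent.H63.VK
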